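import Pool.Agent.H675R4.HL.Stmts

/-!
Pure algebra: a function of three group variables with values in an irreducible coprime module,
which is a cocycle in the outer variables, equivariant and a three-cocycle, vanishes.
-/

set_option autoImplicit false

namespace H675HL

open Finset

section

variable {K V : Type} [Group K] [Finite K] [AddCommGroup V] [Finite V] [DistribMulAction K V]

lemma alg_div (n : ℕ) (hn : ∀ v : V, n • v = 0 → v = 0) (v : V) : ∃ g : V, n • g = v := by
  have h1 : Function.Injective (fun v : V => n • v) := by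
    intro v w hvw
    have h2 : n • (v - w) = 0 := by
      rw [smul_sub]
      exact sub_eq_zero.2 hvw
    exact sub_eq_zero.1 (hn _ h2)
  exact (Finite.injective_iff_surjective.1 h1) v

lemma alg_coc (hN : ∀ v : V, Nat.card K • v = 0 → v = 0) (c : K → V)
    (hc : ∀ z w, c (z * w) = w⁻¹ • c z + c w) : ∃ g : V, ∀ z, c z = z⁻¹ • g - g := by
  cases nonempty_fintype K
  obtain ⟨g, hg⟩ := alg_div (Nat.card K) hN (-∑ z, c z)
  refine ⟨g, fun w => ?_⟩
  have h1 : ∑ z, c z = w⁻¹ • ∑ z, c z + Nat.card K • c w := by
    have h2 : ∑ z, c (z * w) = ∑ z, c z :=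
      Fintype.sum_equiv (Equiv.mulRight w) _ _ fun z => rfl
    conv_lhs => rw [← h2]
    simp_rw [hc]
    rw [Finset.sum_add_distrib, ← Finset.smul_sum, Finset.sum_const, Finset.card_univ,
      Nat.card_eq_fintype_card]
  have h3 : Nat.card K • (c w - (w⁻¹ • g - g)) = 0 := by
    rw [smul_sub, smul_sub, smul_comm (Nat.card K) w⁻¹ g, hg, smul_neg]
    have h4 : Nat.card K • c w = ∑ z, c z - w⁻¹ • ∑ z, c z := by
      rw [eq_sub_iff_add_eq, add_comm]
      exact h1.symm
    rw [h4]
    abel
  exact sub_eq_zero.1 (hN _ h3)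

end

theorem taskAlg : TaskAlg := by
  intro K V _ _ _ _ _ hsol hN hirr b hA hB hE hP
  classical
  cases nonempty_fintype K
  have hb1 : ∀ x y, b x y 1 = 0 := by
    intro x y
    have := hA x y 1 1
    rw [mul_one, inv_one, one_smul] at this
    simpa using this
  by_cases htriv : ∀ (k : K) (v : V), k • v = v
  · have hpow : ∀ x y z (n : ℕ), b x y (z ^ n) = n • b x y z := by
      intro x y z n
      induction n with
      | zero => rw [pow_zero, hb1, zero_smul]
      | succ n ih => rw [pow_succ, hA, htriv, ih, succ_nsmul]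
    intro x y z
    apply hN
    rw [← hpow, pow_card_eq_one', hb1]
  · -- the subgroup `A`
    obtain ⟨A, hAn, hAnt, hAcomm⟩ : ∃ A : Subgroup K, A.Normal ∧
        (¬ ∀ k ∈ A, ∀ v : V, k • v = v) ∧
        ∀ a ∈ A, ∀ a' ∈ A, ∀ v : V, a • a' • v = a' • a • v := by
      have hex : ∃ n, ∀ k ∈ derivedSeries K n, ∀ v : V, k • v = v := by
        obtain ⟨n, hn⟩ := hsol.solvable
        refine ⟨n, fun k hk v => ?_⟩
        rw [hn, Subgroup.mem_bot] at hk
        rw [hk, one_smul]
      obtain ⟨i, hi⟩ : ∃ i, Nat.find hex = i + 1 := by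
        apply Nat.exists_eq_succ_of_ne_zero
        intro h0
        have h1 := Nat.find_spec hex
        rw [h0] at h1
        exact htriv fun k v => h1 k (by rw [derivedSeries_zero]; exact Subgroup.mem_top k) v
      refine ⟨derivedSeries K i, inferInstance, Nat.find_min hex (by omega), ?_⟩
      intro a ha a' ha' v
      have h1 := Nat.find_spec hex
      rw [hi, derivedSeries_succ] at h1
      have h2 := h1 _ (Subgroup.commutator_mem_commutator ha ha') (a' • a • v)
      rw [commutatorElement_def] at h2
      rw [← h2, smul_smul, smul_smul, smul_smul]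
      congr 1
      group
    have hconj : ∀ a ∈ A, ∀ k : K, k⁻¹ * a * k ∈ A := by
      intro a ha k
      have := hAn.conj_mem a ha k⁻¹
      rwa [inv_inv] at this
    -- no fixed points
    have hfix : ∀ v : V, (∀ a ∈ A, a • v = v) → v = 0 := by
      let W : AddSubgroup V :=
        { carrier := {v | ∀ a ∈ A, a • v = v}
          zero_mem' := fun a _ => smul_zero a
          add_mem' := fun {v w} hv hw a ha => by rw [smul_add, hv a ha, hw a ha]
          neg_mem' := fun {v} hv a ha => by rw [smul_neg, hv a ha] }
      have hW : W = ⊥ := by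
        rcases hirr W (by
          intro k w hw a ha
          have h1 : a • k • w = k • (k⁻¹ * a * k) • w := by
            rw [smul_smul, smul_smul]
            congr 1
            group
          rw [h1, hw _ (hconj a ha k)]) with h | h
        · exact h
        · exfalso
          apply hAnt
          intro k hk v
          have hv : v ∈ W := by rw [h]; exact AddSubgroup.mem_top v
          exact hv k hk
      intro v hv
      have h1 : v ∈ W := hv
      rw [hW] at h1
      exact (AddSubgroup.mem_bot).1 h1
    have hsum : ∀ v : V, ∑ a : A, (a : K) • v = 0 := by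
      intro v
      apply hfix
      intro a ha
      rw [Finset.smul_sum]
      refine Fintype.sum_equiv (Equiv.mulLeft (⟨a, ha⟩ : A)) _ _ fun x => ?_
      rw [smul_smul]
      rfl
    have hsum' : ∀ v : V, ∑ a : A, ((a : K))⁻¹ • v = 0 := by
      intro v
      rw [← hsum v]
      exact Fintype.sum_equiv (Equiv.inv A) _ _ fun x => rfl
    -- division by the order of `A`
    set nA : ℕ := Fintype.card A with hnA
    have hNA : ∀ v : V, nA • v = 0 → v = 0 := by
      intro v hv
      apply hN
      obtain ⟨k, hk⟩ := Subgroup.card_subgroup_dvd_card A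
      rw [hk, Nat.card_eq_fintype_card, mul_comm, mul_smul, ← hnA, hv, smul_zero]
    have hcancel : ∀ v w : V, nA • v = nA • w → v = w := by
      intro v w hvw
      have : nA • (v - w) = 0 := by rw [smul_sub, hvw, sub_self]
      exact sub_eq_zero.1 (hNA _ this)
    have hg : ∀ x y, ∃ g : V, ∀ z, b x y z = z⁻¹ • g - g := fun x y =>
      alg_coc hN (b x y) (fun z w => hA x y z w)
    choose g hg using hg
    have hh : ∀ y z, ∃ h : V, ∀ x, (y * z) • b x y z = x⁻¹ • h - h := fun y z =>
      alg_coc hN (fun x => (y * z) • b x y z) (fun x w => hB x w y z)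
    choose h hh using hh
    have hG : ∀ y, ∃ G : V, nA • G = ∑ x : A, g x y := fun y => alg_div nA hNA _
    choose G hG using hG
    have hsub : ∀ v : V, ∑ x : A, (((x : K))⁻¹ • v - v) = -(nA • v) := by
      intro v
      rw [Finset.sum_sub_distrib, hsum', Finset.sum_const, Finset.card_univ, zero_sub]
    have h1 : ∀ y z, h y z = -((y * z) • (z⁻¹ • G y - G y)) := by
      intro y z
      apply hcancel
      have e1 : ∑ x : A, (y * z) • b x y z = -(nA • h y z) := by
        rw [← hsub]
        exact Finset.sum_congr rfl fun x _ => hh y z x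
      have e2 : ∑ x : A, (y * z) • b x y z = nA • ((y * z) • (z⁻¹ • G y - G y)) := by
        rw [← Finset.smul_sum]
        simp_rw [hg]
        rw [Finset.sum_sub_distrib, ← Finset.smul_sum, ← hG, smul_comm nA (y * z), smul_sub nA,
          smul_comm nA z⁻¹]
      rw [smul_neg, ← e2, e1, neg_neg]
    have hb : ∀ x y z, b x y z = (z⁻¹ • G y - G y) -
        (y * z)⁻¹ • x⁻¹ • (y * z) • (z⁻¹ • G y - G y) := by
      intro x y z
      have e1 : b x y z = (y * z)⁻¹ • ((y * z) • b x y z) := (inv_smul_smul _ _).symm
      rw [e1, hh, h1, smul_neg, sub_neg_eq_add, smul_add, smul_neg, inv_smul_smul]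
      abel
    -- the values of `g` on `A`
    have h3 : ∀ x ∈ A, ∀ y, g x y = G y - (y⁻¹ * x⁻¹ * y) • G y := by
      intro x hx y
      apply hcancel
      have hx' : y⁻¹ * x⁻¹ * y ∈ A := hconj _ (A.inv_mem hx) y
      have e1 : ∑ z : A, b x y z = -(nA • g x y) := by
        rw [← hsub]
        exact Finset.sum_congr rfl fun z _ => hg x y z
      have e2 : ∑ z : A, b x y z = -(nA • (G y - (y⁻¹ * x⁻¹ * y) • G y)) := by
        have e3 : ∀ z : A, b x y z = (((z : K))⁻¹ • G y - G y) -
            (y⁻¹ * x⁻¹ * y) • (((z : K))⁻¹ • G y - G y) := by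
          intro z
          rw [hb x y z]
          congr 1
          set D := ((z : K))⁻¹ • G y - G y
          have e4 : (y * (z : K))⁻¹ • x⁻¹ • (y * (z : K)) • D =
              ((z : K))⁻¹ • (y⁻¹ * x⁻¹ * y) • (z : K) • D := by
            rw [smul_smul, smul_smul, smul_smul, smul_smul]
            congr 1
            group
          rw [e4, hAcomm _ hx' _ z.2, inv_smul_smul]
        simp_rw [e3]
        rw [Finset.sum_sub_distrib, ← Finset.smul_sum, hsub, smul_neg, smul_sub nA,
          smul_comm nA (y⁻¹ * x⁻¹ * y)]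
        abel
      rw [e1] at e2
      exact neg_injective e2
    have h4 : ∀ y, ∀ a ∈ A, ∀ z : K, a • G y = (z⁻¹ * a * z) • G y := by
      intro y a ha z
      have hx : y * a⁻¹ * y⁻¹ ∈ A := hAn.conj_mem _ (A.inv_mem ha) y
      have e0 : y⁻¹ * (y * a⁻¹ * y⁻¹)⁻¹ * y = a := by group
      have e1 := hg (y * a⁻¹ * y⁻¹) y z
      rw [h3 _ hx y, e0, hb] at e1
      have e2 : (y * z)⁻¹ • (y * a⁻¹ * y⁻¹)⁻¹ • (y * z) • (z⁻¹ • G y - G y) =
          z⁻¹ • a • G y - (z⁻¹ * a * z) • G y := by
        rw [smul_smul, smul_smul, smul_sub, smul_smul, smul_smul]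
        congr 1
        · congr 1
          group
        · congr 1
          group
      rw [e2, smul_sub] at e1
      have e3 : a • G y - (z⁻¹ * a * z) • G y = 0 := by
        have e4 : a • G y - (z⁻¹ * a * z) • G y =
            (z⁻¹ • G y - z⁻¹ • a • G y - (G y - a • G y)) -
            (z⁻¹ • G y - G y - (z⁻¹ • a • G y - (z⁻¹ * a * z) • G y)) := by abel
        rw [e4, e1, sub_self]
      exact sub_eq_zero.1 e3
    -- the two cases
    let V1 : AddSubgroup V :=
      { carrier := {v | ∀ a ∈ A, ∀ z : K, a • v = (z⁻¹ * a * z) • v}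
        zero_mem' := fun a _ z => by rw [smul_zero, smul_zero]
        add_mem' := fun {v w} hv hw a ha z => by rw [smul_add, smul_add, hv a ha z, hw a ha z]
        neg_mem' := fun {v} hv a ha z => by rw [smul_neg, smul_neg, hv a ha z] }
    rcases hirr V1 (by
      intro k v hv a ha z
      have hv' : ∀ a ∈ A, ∀ z : K, a • v = (z⁻¹ * a * z) • v := hv
      have e1 : a • k • v = k • (k⁻¹ * a * k) • v := by
        rw [smul_smul, smul_smul]
        congr 1
        group
      have e2 : (z⁻¹ * a * z) • k • v = k • ((z * k)⁻¹ * a * (z * k)) • v := by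
        rw [smul_smul, smul_smul]
        congr 1
        group
      rw [e1, e2, ← hv' a ha k, ← hv' a ha (z * k)]) with hV | hV
    · intro x y z
      have hGy : G y = 0 := by
        have : G y ∈ V1 := h4 y
        rw [hV] at this
        exact (AddSubgroup.mem_bot).1 this
      rw [hb, hGy]
      simp
    · have hcent : ∀ a ∈ A, ∀ (z : K) (v : V), a • v = (z⁻¹ * a * z) • v := by
        intro a ha z v
        have hv : v ∈ V1 := by rw [hV]; exact AddSubgroup.mem_top v
        exact hv a ha z
      have hinv : ∀ c : K, (∀ v : V, c • v = v) → ∀ v : V, c⁻¹ • v = v := by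
        intro c hc v
        conv_lhs => rw [← hc v]
        exact inv_smul_smul c v
      have hc0 : ∀ c : K, (∀ v : V, c • v = v) → ∀ y z, b c y z = 0 := by
        intro c hc y z
        rw [hb, hinv c hc, inv_smul_smul, sub_self]
      have hxc : ∀ c : K, (∀ v : V, c • v = v) → ∀ x y z, b (x * c) y z = b x y z := by
        intro c hc x y z
        have e : ∀ v : V, (x * c)⁻¹ • v = x⁻¹ • v := by
          intro v
          rw [mul_inv_rev, mul_smul, hinv c hc]
        rw [hb (x * c), hb x, e]
      have hcx : ∀ c : K, (∀ v : V, c • v = v) → ∀ x y z, b (c * x) y z = b x y z := by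
        intro c hc x y z
        have e : ∀ v : V, (c * x)⁻¹ • v = x⁻¹ • v := by
          intro v
          rw [mul_inv_rev, mul_smul, hinv c hc]
        rw [hb (c * x), hb x, e]
      have hyc : ∀ y : K, (∀ v : V, y • v = v) → ∀ x z w, b x (y * z) w = b x z w + b x y w := by
        intro y hy x z w
        have e1 := hP x y z w
        rw [hc0 y hy, hxc y hy, hA x y z w] at e1
        have e2 : b x (y * z) w - (b x z w + b x y w) = 0 := by
          rw [← e1]
          abel
        exact sub_eq_zero.1 e2
      have h1w : ∀ x w, b x 1 w = 0 := by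
        intro x w
        have e1 := hyc 1 (fun v => one_smul K v) x 1 w
        rw [mul_one] at e1
        simpa using e1
      have hypow : ∀ y : K, (∀ v : V, y • v = v) → ∀ x w (n : ℕ), b x (y ^ n) w = n • b x y w := by
        intro y hy x w n
        induction n with
        | zero => rw [pow_zero, h1w, zero_smul]
        | succ n ih => rw [pow_succ', hyc y hy, ih, succ_nsmul]
      have hy0 : ∀ y : K, (∀ v : V, y • v = v) → ∀ x w, b x y w = 0 := by
        intro y hy x w
        apply hN
        rw [← hypow y hy, pow_card_eq_one', h1w]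
      have hzc : ∀ c : K, (∀ v : V, c • v = v) → ∀ x y z, b x y (z * c) = b x y z := by
        intro c hc x y z
        have e1 : b x y c = 0 := by
          rw [hb, hinv c hc, sub_self]
          simp
        rw [hA, e1, add_zero, hinv c hc]
      intro x y z
      apply hfix
      intro a ha
      rw [← hE a x y z]
      have t1 : ∀ x : K, ∀ v : V, (a * x * a⁻¹ * x⁻¹) • v = v := by
        intro x v
        have e1 : (a * x * a⁻¹ * x⁻¹) • v = a • (x⁻¹⁻¹ * a⁻¹ * x⁻¹) • v := by
          rw [smul_smul]
          congr 1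
          group
        rw [e1, ← hcent _ (A.inv_mem ha), smul_inv_smul]
      have t3 : ∀ v : V, (z⁻¹ * a * z * a⁻¹) • v = v := by
        intro v
        rw [mul_smul, ← hcent a ha, smul_inv_smul]
      have e1 : a * x * a⁻¹ = (a * x * a⁻¹ * x⁻¹) * x := by group
      have e2 : a * y * a⁻¹ = (a * y * a⁻¹ * y⁻¹) * y := by group
      have e3 : a * z * a⁻¹ = z * (z⁻¹ * a * z * a⁻¹) := by group
      rw [e1, hcx _ (t1 x), e2, hyc _ (t1 y), hy0 _ (t1 y), add_zero, e3, hzc _ t3]

end H675HL
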