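import Pool.Agent.H675R4.HL.Stmts

/-!
# Passing to a surjective homomorphism with nontrivial kernel
-/

set_option autoImplicit false

namespace H675HL

theorem base_map_one {Q : Type} [AL Q] {K : Type} [Group K] {f : Q → K} (h : Ker f) :
    f 1 = 1 := by
  have h1 := h.1 1 1
  rw [AL.one_mul'] at h1
  exact (mul_eq_left.mp h1.symm)

theorem base_div {Q : Type} [AL Q] {K : Type} [Group K] {f : Q → K} (h : Ker f) (x y : Q)
    (hxy : f x = f y) : ∃ m : Q, f m = 1 ∧ x * m = y := by
  obtain ⟨m, hm⟩ := (AL.bijL x).2 y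
  refine ⟨m, ?_, hm⟩
  have h1 := h.1 x m
  simp only at hm
  rw [hm, ← hxy] at h1
  exact (mul_eq_left.mp h1.symm)

theorem base_card {Q : Type} [AL Q] {K : Type} [Group K] {f : Q → K} (h : Ker f)
    (hs : Function.Surjective f) : Nat.card Q = Nat.card K * Nat.card {m : Q | f m = 1} := by
  rw [← Nat.card_prod]
  refine Nat.card_congr (Equiv.ofBijective
    (fun p : K × {m : Q | f m = 1} => Function.surjInv hs p.1 * p.2.1) ⟨?_, ?_⟩).symm
  · rintro ⟨a, m, hm⟩ ⟨b, m', hm'⟩ hab
    simp only [Set.mem_ofPred_eq] at hm hm'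
    simp only at hab
    have h1 := congrArg f hab
    rw [h.1, h.1, hm, hm', Function.surjInv_eq hs, Function.surjInv_eq hs, mul_one, mul_one] at h1
    subst h1
    have h2 := (AL.bijL (Function.surjInv hs a)).1 hab
    subst h2
    rfl
  · intro y
    obtain ⟨m, hm, hxm⟩ := base_div h (Function.surjInv hs (f y)) y (Function.surjInv_eq hs _)
    exact ⟨⟨f y, m, hm⟩, hxm⟩

/-- The range of a homomorphism. -/
def baseRange {Q : Type} [AL Q] {K : Type} [Group K] {f : Q → K} (h : Ker f) : Subgroup K where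
  carrier := Set.range f
  mul_mem' := by
    rintro _ _ ⟨x, rfl⟩ ⟨y, rfl⟩
    exact ⟨x * y, h.1 x y⟩
  one_mem' := ⟨1, base_map_one h⟩
  inv_mem' := by
    rintro _ ⟨x, rfl⟩
    obtain ⟨y, hy⟩ := (AL.bijL x).2 1
    simp only at hy
    refine ⟨y, ?_⟩
    have h1 := h.1 x y
    rw [hy, base_map_one h] at h1
    exact eq_inv_of_mul_eq_one_right h1.symm

/-- The homomorphism onto the range. -/
def baseF {Q : Type} [AL Q] {K : Type} [Group K] {f : Q → K} (h : Ker f) : Q → baseRange h :=
  fun x => ⟨f x, x, rfl⟩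

theorem baseF_eq_one {Q : Type} [AL Q] {K : Type} [Group K] {f : Q → K} (h : Ker f) (x : Q) :
    baseF h x = 1 ↔ f x = 1 := by
  constructor
  · intro h1
    exact congrArg Subtype.val h1
  · intro h1
    exact Subtype.ext h1

theorem baseF_surj {Q : Type} [AL Q] {K : Type} [Group K] {f : Q → K} (h : Ker f) :
    Function.Surjective (baseF h) := by
  rintro ⟨_, x, rfl⟩
  exact ⟨x, rfl⟩

theorem baseF_mul {Q : Type} [AL Q] {K : Type} [Group K] {f : Q → K} (h : Ker f) (x y : Q) :
    baseF h (x * y) = baseF h x * baseF h y := by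
  apply Subtype.ext
  exact h.1 x y

theorem base_last (G : Type) [Group G] [Group.IsSolvable G] [Nontrivial G] :
    ∃ A : Subgroup G, A.Normal ∧ A ≠ ⊥ ∧ ∀ a ∈ A, ∀ b ∈ A, a * b = b * a := by
  classical
  have hex : ∃ n, derivedSeries G n = ⊥ := (Group.isSolvable_def G).mp inferInstance
  have h0 : Nat.find hex ≠ 0 := by
    intro h0
    have h1 := Nat.find_spec hex
    rw [h0, derivedSeries_zero] at h1
    exact top_ne_bot h1
  obtain ⟨m, hm⟩ := Nat.exists_eq_succ_of_ne_zero h0
  refine ⟨derivedSeries G m, derivedSeries_normal G m, Nat.find_min hex (by omega), ?_⟩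
  have h1 := Nat.find_spec hex
  rw [hm, Nat.succ_eq_add_one, derivedSeries_succ] at h1
  intro a ha b hb
  have h2 := Subgroup.commutator_mem_commutator ha hb
  rw [h1, Subgroup.mem_bot, commutatorElement_eq_one_iff_mul_comm] at h2
  exact h2

theorem taskBase : TaskBase := by
  intro Q _ _ hgood hne
  obtain ⟨K, _, f, hK, hf⟩ := hgood
  have hfin : Finite (baseRange hf) := Finite.of_surjective _ (baseF_surj hf)
  have hsol : Group.IsSolvable (baseRange hf) := inferInstance
  by_cases hker : ∃ m : Q, m ≠ 1 ∧ f m = 1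
  · have hkf : Ker (baseF hf) := by
      refine ⟨baseF_mul hf, ?_, ?_⟩
      · intro x y hx hy
        rw [baseF_eq_one] at hx hy
        exact hf.2.1 x y hx hy
      · intro x y z hx hy hz
        rw [baseF_eq_one] at hx hy hz
        exact hf.2.2 x y z hx hy hz
    refine ⟨baseRange hf, inferInstance, hfin, baseF hf, hsol, hkf, baseF_surj hf, ?_,
      base_card hkf (baseF_surj hf)⟩
    obtain ⟨m, hm, hm1⟩ := hker
    exact ⟨m, hm, (baseF_eq_one hf m).2 hm1⟩
  · push Not at hker
    have hinj : Function.Injective f := by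
      intro x y hxy
      obtain ⟨m, hm, hxm⟩ := base_div hf x y hxy
      by_contra hne2
      apply hker m _ hm
      rintro rfl
      rw [AL.mul_one'] at hxm
      exact hne2 hxm
    have hassoc : ∀ x y z : Q, (x * y) * z = x * (y * z) := by
      intro x y z
      apply hinj
      rw [hf.1, hf.1, hf.1, hf.1, mul_assoc]
    have hinj2 : Function.Injective (baseF hf) := by
      intro x y hxy
      exact hinj (congrArg Subtype.val hxy)
    have : Nontrivial (baseRange hf) := by
      obtain ⟨x, hx⟩ := hne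
      exact ⟨baseF hf x, baseF hf 1, fun h => hx (hinj2 h)⟩
    obtain ⟨A, hAn, hAb, hAc⟩ := base_last (baseRange hf)
    set g : Q → (baseRange hf) ⧸ A := fun x => QuotientGroup.mk (baseF hf x) with hg
    have hg1 : ∀ x, g x = 1 ↔ baseF hf x ∈ A := fun x => QuotientGroup.eq_one_iff _
    have hgs : Function.Surjective g := by
      intro y
      obtain ⟨z, rfl⟩ := QuotientGroup.mk_surjective y
      obtain ⟨x, rfl⟩ := baseF_surj hf z
      exact ⟨x, rfl⟩
    have hkg : Ker g := by
      refine ⟨?_, ?_, ?_⟩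
      · intro x y
        simp only [hg, baseF_mul]
        rfl
      · intro x y hx hy
        rw [hg1] at hx hy
        apply hinj2
        rw [baseF_mul, baseF_mul]
        exact hAc _ hx _ hy
      · intro x y z _ _ _
        exact hassoc x y z
    refine ⟨(baseRange hf) ⧸ A, inferInstance, inferInstance, g, inferInstance, hkg, hgs, ?_,
      base_card hkg hgs⟩
    obtain ⟨a, haA, ha1⟩ := (Subgroup.ne_bot_iff_exists_ne_one.mp hAb : ∃ a : A, a ≠ 1) |>.elim
      (fun a ha => (⟨a.1, a.2, fun h => ha (Subtype.ext h)⟩ : ∃ a : baseRange hf, a ∈ A ∧ a ≠ 1))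
    obtain ⟨x, rfl⟩ := baseF_surj hf a
    refine ⟨x, ?_, (hg1 x).2 haA⟩
    rintro rfl
    apply ha1
    rw [baseF_eq_one]
    exact base_map_one hf

end H675HL
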