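import Pool.Agent.H675R4.HL.Stmts

/-! # H675-HL TaskChar (helper471) -/

set_option autoImplicit false

namespace H675HL

namespace CharAux

variable {Q : Type} [AL Q]

/-- left multiplication -/
noncomputable def L (a : Q) : Equiv.Perm Q := Equiv.ofBijective (fun x => a * x) (AL.bijL a)

/-- right multiplication -/
noncomputable def R (a : Q) : Equiv.Perm Q := Equiv.ofBijective (fun x => x * a) (AL.bijR a)

lemma L_symm (a x : Q) : a * (L a).symm x = x := (L a).apply_symm_apply x

lemma R_symm (a x : Q) : (R a).symm x * a = x := (R a).apply_symm_apply x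

lemma L_inj {a x y : Q} (h : a * x = a * y) : x = y := (AL.bijL a).1 h

lemma R_inj {a x y : Q} (h : x * a = y * a) : x = y := (AL.bijR a).1 h

/-- `u ↦ a` with `a * x = x * u` -/
noncomputable def gT (x : Q) : Equiv.Perm Q := (L x).trans (R x).symm

lemma gT_spec (x u : Q) : gT x u * x = x * u := R_symm x (x * u)

/-- `u ↦ a` with `a * (x * y) = (u * x) * y` -/
noncomputable def gR (x y : Q) : Equiv.Perm Q := ((R x).trans (R y)).trans (R (x * y)).symm

lemma gR_spec (x y u : Q) : gR x y u * (x * y) = (u * x) * y := R_symm (x * y) ((u * x) * y)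

/-- `u ↦ a` with `(y * x) * a = y * (x * u)` -/
noncomputable def gL (x y : Q) : Equiv.Perm Q := ((L x).trans (L y)).trans (L (y * x)).symm

lemma gL_spec (x y u : Q) : (y * x) * gL x y u = y * (x * u) := L_symm (y * x) (y * (x * u))

lemma gT_aut (x : Q) : IsAut (gT x) := by
  intro u v
  apply R_inj (a := x)
  rw [gT_spec, AL.autT x u v _ _ (gT_spec x u) (gT_spec x v)]

lemma gR_aut (x y : Q) : IsAut (gR x y) := by
  intro u v
  apply R_inj (a := x * y)
  rw [gR_spec, AL.autR y x u v _ _ (gR_spec x y u) (gR_spec x y v)]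

lemma gL_aut (x y : Q) : IsAut (gL x y) := by
  intro u v
  apply L_inj (a := y * x)
  rw [gL_spec, AL.autL y x u v _ _ (gL_spec x y u) (gL_spec x y v)]

end CharAux

open CharAux in
theorem taskChar : TaskChar := by
  intro Q K _ _ _ f M hf hM hM1 hinv
  have hmul := hf.1
  refine ⟨hM, fun x y m hm => ⟨?_, ?_, ?_⟩⟩
  · refine ⟨gT x m, hinv (gT x) (gT_aut x) ⟨f x, fun u => ?_⟩ m hm, (gT_spec x m).symm⟩
    have h := congrArg f (gT_spec x u)
    rw [hmul, hmul] at h
    exact eq_mul_inv_of_mul_eq h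
  · refine ⟨gR x y m, hinv (gR x y) (gR_aut x y) ⟨1, fun u => ?_⟩ m hm, (gR_spec x y m).symm⟩
    have h := congrArg f (gR_spec x y u)
    rw [hmul, hmul, hmul, hmul, mul_assoc (f u)] at h
    rw [one_mul, inv_one, mul_one]
    exact mul_right_cancel h
  · refine ⟨gL x y m, hinv (gL x y) (gL_aut x y) ⟨1, fun u => ?_⟩ m hm, (gL_spec x y m).symm⟩
    have h := congrArg f (gL_spec x y u)
    rw [hmul, hmul, hmul, hmul, ← mul_assoc (f y)] at h
    rw [one_mul, inv_one, mul_one]
    exact mul_left_cancel h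

end H675HL
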