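import Pool.Agent.H675R4.HL.Stmts

set_option autoImplicit false

/-! Task Elem: minimal normal subloops in the kernel are `p`-groups. -/

namespace H675HL

theorem elem_exists_inv {Q : Type} [AL Q] [Finite Q] {M : Set Q} (hM : Sub M) (a : M) :
    ∃ b : M, (b : Q) * (a : Q) = 1 := by
  have hinj : Function.Injective (fun b : M => (⟨(b : Q) * (a : Q), hM.2 b b.2 a a.2⟩ : M)) := by
    intro b c h
    have h' : (b : Q) * (a : Q) = (c : Q) * (a : Q) := congrArg Subtype.val h
    exact Subtype.ext ((AL.bijR (a : Q)).1 h')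
  obtain ⟨b, hb⟩ := (Finite.injective_iff_surjective.1 hinj) ⟨1, hM.1⟩
  exact ⟨b, congrArg Subtype.val hb⟩

/-- the abelian group structure on a subloop of the kernel -/
noncomputable def elemGrp {Q K : Type} [AL Q] [Finite Q] [Group K] {f : Q → K} {M : Set Q}
    (hf : Ker f) (hM : Sub M) (hK : ∀ m ∈ M, f m = 1) : CommGroup M where
  mul a b := ⟨(a : Q) * (b : Q), hM.2 a a.2 b b.2⟩
  one := ⟨1, hM.1⟩
  inv a := (elem_exists_inv hM a).choose
  mul_assoc a b c := Subtype.ext (hf.2.2 a b c (hK a a.2) (hK b b.2) (hK c c.2))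
  one_mul a := Subtype.ext (AL.one_mul' _)
  mul_one a := Subtype.ext (AL.mul_one' _)
  inv_mul_cancel a := Subtype.ext (elem_exists_inv hM a).choose_spec
  mul_comm a b := Subtype.ext (hf.2.1 a b (hK a a.2) (hK b b.2))

theorem taskElem' : TaskElem := by
  intro Q K _ _ _ f M hf hN hne hK hmin
  letI : CommGroup M := elemGrp hf hN.1 hK
  have hcard : Nat.card M ≠ 1 := by
    intro h
    apply hne
    obtain ⟨hs, _⟩ := Nat.card_eq_one_iff_unique.1 h
    ext x
    rw [Set.mem_singleton_iff]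
    constructor
    · intro hx
      have h1 : (⟨x, hx⟩ : M) = ⟨1, hN.1.1⟩ := hs.elim _ _
      exact congrArg Subtype.val h1
    · rintro rfl
      exact hN.1.1
  obtain ⟨p, hp, hpd⟩ := Nat.exists_prime_and_dvd hcard
  have := Fact.mk hp
  obtain ⟨z, hz⟩ := exists_prime_orderOf_dvd_card' (G := M) p hpd
  let M' : Set Q := {x | ∃ h : x ∈ M, (⟨x, h⟩ : M) ^ p = 1}
  have key : ∀ rel : Q → Q → Prop, rel 1 1 →
      (∀ a b u v, rel a u → rel b v → rel (a * b) (u * v)) → (∀ a, rel a 1 → a = 1) →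
      ∀ m1 m : M, rel m1 m → m ^ p = 1 → m1 ^ p = 1 := by
    intro rel h1 hm h0 m1 m hrel hmp
    have hpow : ∀ k : ℕ, rel ((m1 ^ k : M) : Q) ((m ^ k : M) : Q) := by
      intro k
      induction k with
      | zero =>
        rw [pow_zero, pow_zero]
        exact h1
      | succ k ih =>
        rw [pow_succ, pow_succ]
        exact hm _ _ _ _ ih hrel
    have h2 := hpow p
    rw [hmp] at h2
    exact Subtype.ext (h0 _ h2)
  have hM' : Normal M' := by
    refine ⟨⟨⟨hN.1.1, one_pow p⟩, ?_⟩, ?_⟩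
    · rintro a ⟨ha, ha'⟩ b ⟨hb, hb'⟩
      refine ⟨hN.1.2 a ha b hb, ?_⟩
      have h1 : (⟨a * b, hN.1.2 a ha b hb⟩ : M) = ⟨a, ha⟩ * ⟨b, hb⟩ := rfl
      rw [h1, mul_pow, ha', hb', one_mul]
    · rintro x y m ⟨hm, hm'⟩
      obtain ⟨⟨m1, hm1, e1⟩, ⟨m2, hm2, e2⟩, ⟨m3, hm3, e3⟩⟩ := hN.2 x y m hm
      refine ⟨⟨m1, ⟨hm1, ?_⟩, e1⟩, ⟨m2, ⟨hm2, ?_⟩, e2⟩, ⟨m3, ⟨hm3, ?_⟩, e3⟩⟩
      · refine key (fun a u => a * x = x * u) ?_ ?_ ?_ ⟨m1, hm1⟩ ⟨m, hm⟩ e1.symm hm'
        · exact (AL.one_mul' x).trans (AL.mul_one' x).symm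
        · intro a b u v h h'
          exact AL.autT x u v a b h h'
        · intro a h
          exact (AL.bijR x).1 (h.trans ((AL.mul_one' x).trans (AL.one_mul' x).symm))
      · refine key (fun a u => a * (x * y) = (u * x) * y) ?_ ?_ ?_ ⟨m2, hm2⟩ ⟨m, hm⟩ e2.symm hm'
        · show (1 : Q) * (x * y) = (1 * x) * y
          rw [AL.one_mul', AL.one_mul']
        · intro a b u v h h'
          exact AL.autR y x u v a b h h'
        · intro a h
          refine (AL.bijR (x * y)).1 (h.trans ?_)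
          show (1 * x) * y = 1 * (x * y)
          rw [AL.one_mul', AL.one_mul']
      · refine key (fun a u => (y * x) * a = y * (x * u)) ?_ ?_ ?_ ⟨m3, hm3⟩ ⟨m, hm⟩ e3.symm hm'
        · show (y * x) * (1 : Q) = y * (x * 1)
          rw [AL.mul_one', AL.mul_one']
        · intro a b u v h h'
          exact AL.autL y x u v a b h h'
        · intro a h
          refine (AL.bijL (y * x)).1 (h.trans ?_)
          show y * (x * 1) = (y * x) * 1
          rw [AL.mul_one', AL.mul_one']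
  have hsub : M' ⊆ M := fun x hx => hx.1
  have hM'M : M' = M := by
    rcases hmin M' hM' hsub with h | h
    · exfalso
      have h1 : (z : Q) ∈ M' := by
        refine ⟨z.2, ?_⟩
        have h2 := pow_orderOf_eq_one z
        rw [hz] at h2
        exact h2
      rw [h, Set.mem_singleton_iff] at h1
      have h3 : z = 1 := Subtype.ext h1
      rw [h3, orderOf_one] at hz
      exact hp.one_lt.ne hz
    · exact h
  have hpg : IsPGroup p M := by
    intro x
    refine ⟨1, ?_⟩
    have hx : (x : Q) ∈ M' := by rw [hM'M]; exact x.2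
    obtain ⟨_, h⟩ := hx
    rw [pow_one]
    exact h
  obtain ⟨n, hn⟩ := IsPGroup.iff_card.1 hpg
  refine ⟨p, n, hp, ?_, hn⟩
  rintro rfl
  rw [pow_zero] at hn
  exact hcard hn

theorem taskElem : TaskChar → TaskElem := fun _ => taskElem'

end H675HL
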