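import Pool.Agent.H675R4.HL.Stmts

/-!
TaskFix of project H675-HL (written by helper933).
-/

set_option autoImplicit false

namespace H675HL

namespace FixAux

theorem card_of_fibres {α β : Type} [Finite α] (h : α → β) (c : ℕ)
    (hc : ∀ a, Nat.card {b : α // h b = h a} = c) :
    Nat.card α = Nat.card (Set.range h) * c := by
  classical
  have : Fintype α := Fintype.ofFinite α
  have hfin : Finite (Set.range h) := Set.finite_range h
  have : Fintype (Set.range h) := Fintype.ofFinite _
  rw [← Nat.card_congr (Equiv.sigmaFiberEquiv (Set.rangeFactorization h)), Nat.card_sigma]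
  have hs : ∀ r : Set.range h, Nat.card {x // Set.rangeFactorization h x = r} = c := by
    rintro ⟨r, a, rfl⟩
    rw [← hc a]
    refine Nat.card_congr (Equiv.subtypeEquivRight fun b => ?_)
    rw [Subtype.ext_iff]
    rfl
  rw [Finset.sum_congr rfl (fun r _ => hs r), Finset.sum_const, Finset.card_univ,
    Nat.card_eq_fintype_card, smul_eq_mul]

variable {Q K : Type} [AL Q] [Group K] {f : Q → K}

theorem f_one (hf : Ker f) : f 1 = 1 := by
  have h := hf.1 1 1
  rw [AL.one_mul'] at h
  exact (mul_eq_left.1 h.symm)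

theorem injL {a x y : Q} (h : a * x = a * y) : x = y := (AL.bijL a).1 h

theorem injR {a x y : Q} (h : x * a = y * a) : x = y := (AL.bijR a).1 h

/-- The kernel as a type. -/
abbrev Kr (f : Q → K) : Type := {m : Q // f m = 1}

noncomputable def invK (hf : Ker f) (m : Kr f) : Kr f :=
  ⟨((AL.bijR m.1).2 1).choose, by
    have h := ((AL.bijR m.1).2 1).choose_spec
    have h2 : f (((AL.bijR m.1).2 1).choose * m.1) = f 1 := congrArg f h
    rw [hf.1, m.2, mul_one, f_one hf] at h2
    exact h2⟩

theorem invK_spec (hf : Ker f) (m : Kr f) : (invK hf m).1 * m.1 = 1 :=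
  ((AL.bijR m.1).2 1).choose_spec

/-- The kernel is a group. -/
noncomputable abbrev grp (hf : Ker f) : Group (Kr f) :=
  @Group.ofLeftAxioms (Kr f) ⟨fun a b => ⟨a.1 * b.1, by rw [hf.1, a.2, b.2, mul_one]⟩⟩
    ⟨fun a => invK hf a⟩ ⟨⟨1, f_one hf⟩⟩
    (fun a b c => Subtype.ext (hf.2.2 a.1 b.1 c.1 a.2 b.2 c.2))
    (fun a => Subtype.ext (AL.one_mul' a.1))
    (fun a => Subtype.ext (invK_spec hf a))

theorem g_one {g : Equiv.Perm Q} (hg : IsAut g) : g 1 = 1 := by
  have h := hg 1 1
  rw [AL.one_mul'] at h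
  have h2 : g 1 * 1 = g 1 * g 1 := by rw [AL.mul_one']; exact h
  exact (injL h2).symm

theorem card_fixKer (hf : Ker f) [Finite Q] {g : Equiv.Perm Q} (hg : IsAut g) :
    Nat.card {m : Kr f // g m.1 = m.1} ∣ Nat.card (Kr f) := by
  letI : Group (Kr f) := grp hf
  let A : Subgroup (Kr f) :=
    { carrier := {m | g m.1 = m.1}
      mul_mem' := by
        intro a b ha hb
        show g (a.1 * b.1) = a.1 * b.1
        rw [hg]
        rw [Set.mem_setOf_eq] at ha hb
        rw [ha, hb]
      one_mem' := by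
        show g (1 : Q) = 1
        exact g_one hg
      inv_mem' := by
        intro a ha
        show g (invK hf a).1 = (invK hf a).1
        rw [Set.mem_setOf_eq] at ha
        have h1 : g (invK hf a).1 * a.1 = (invK hf a).1 * a.1 := by
          have h2 := hg (invK hf a).1 a.1
          rw [ha] at h2
          rw [← h2, invK_spec hf a, g_one hg]
        exact injR h1 }
  exact Subgroup.card_subgroup_dvd_card A

theorem card_fibre (hf : Ker f) (x : Q) :
    Nat.card {y : Q // f y = f x} = Nat.card (Kr f) := by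
  symm
  refine Nat.card_congr (Equiv.ofBijective
    (fun m : Kr f => (⟨x * m.1, by rw [hf.1, m.2, mul_one]⟩ : {y : Q // f y = f x})) ⟨?_, ?_⟩)
  · intro a b h
    exact Subtype.ext (injL (congrArg Subtype.val h))
  · rintro ⟨y, hy⟩
    obtain ⟨m, hm⟩ := (AL.bijL x).2 y
    have hm' : x * m = y := hm
    refine ⟨⟨m, ?_⟩, Subtype.ext hm'⟩
    have h2 : f x * f m = f x := by rw [← hf.1, hm', hy]
    exact mul_eq_left.1 h2

theorem exists_fix [Finite Q] (hf : Ker f) {p q n k : ℕ} (hp : p.Prime) (hq : q.Prime)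
    (hqp : q ≠ p) (hcard : Nat.card (Kr f) = p ^ n) (g : Equiv.Perm Q)
    (hfg : ∀ x, f (g x) = f x) (hgk : g ^ q ^ k = 1) (x : Q) :
    ∃ y : Q, f y = f x ∧ g y = y := by
  classical
  have : Fact q.Prime := ⟨hq⟩
  have : Fintype {y : Q // f y = f x} := Fintype.ofFinite _
  have hsub : ∀ y, f (g y) = f x ↔ f y = f x := fun y => by rw [hfg]
  let σ : Equiv.Perm {y : Q // f y = f x} := g.subtypePerm hsub
  have hσ : σ ^ q ^ k = 1 := by
    rw [Equiv.Perm.subtypePerm_pow]
    ext y
    simp [hgk]
  have hnd : ¬ q ∣ Fintype.card {y : Q // f y = f x} := by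
    rw [← Nat.card_eq_fintype_card, card_fibre hf x, hcard]
    intro hdiv
    exact hqp ((Nat.prime_dvd_prime_iff_eq hq hp).1 (hq.dvd_of_dvd_pow hdiv))
  obtain ⟨y, hy⟩ := Equiv.Perm.exists_fixed_point_of_prime hnd hσ
  exact ⟨y.1, y.2, congrArg Subtype.val hy⟩

end FixAux

open FixAux in
theorem taskFix : TaskFix := by
  intro Q K _ _ _ f p q n k hf hp hq hqp hcard g hg hfg hgk
  have hcard' : Nat.card (Kr f) = p ^ n := hcard
  refine ⟨⟨g_one hg, ?_⟩, ?_⟩
  · intro a ha b hb
    rw [Set.mem_setOf_eq] at ha hb ⊢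
    rw [hg, ha, hb]
  · have hdvd := card_fixKer hf hg
    rw [hcard'] at hdvd
    obtain ⟨i, hi, hAi⟩ := (Nat.dvd_prime_pow hp).1 hdvd
    have hQ : Nat.card Q = Nat.card (Set.range f) * p ^ n := by
      refine card_of_fibres f (p ^ n) fun a => ?_
      rw [card_fibre hf a, hcard']
    have hS : Nat.card {y : Q | g y = y} =
        Nat.card (Set.range fun y : {y : Q | g y = y} => f y.1) * p ^ i := by
      refine card_of_fibres (fun y : {y : Q | g y = y} => f y.1) (p ^ i) fun a => ?_
      rw [← hAi]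
      symm
      refine Nat.card_congr (Equiv.ofBijective
        (fun m : {m : Kr f // g m.1 = m.1} =>
          (⟨⟨a.1 * m.1.1, by
              have ha : g a.1 = a.1 := a.2
              show g (a.1 * m.1.1) = a.1 * m.1.1
              rw [hg, ha, m.2]⟩, by
            show f (a.1 * m.1.1) = f a.1
            rw [hf.1, m.1.2, mul_one]⟩ :
            {b : {y : Q | g y = y} // f b.1 = f a.1})) ⟨?_, ?_⟩)
      · intro m m' h
        have h2 : a.1 * m.1.1 = a.1 * m'.1.1 := congrArg (fun z => z.1.1) h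
        exact Subtype.ext (Subtype.ext (injL h2))
      · rintro ⟨⟨y, hy⟩, hy2⟩
        have hy' : g y = y := hy
        have hy2' : f y = f a.1 := hy2
        have ha : g a.1 = a.1 := a.2
        obtain ⟨m, hm⟩ := (AL.bijL a.1).2 y
        have hm' : a.1 * m = y := hm
        have hfm : f m = 1 := by
          have h2 : f a.1 * f m = f a.1 := by rw [← hf.1, hm', hy2']
          exact mul_eq_left.1 h2
        have hgm : g m = m := by
          have h3 : a.1 * g m = a.1 * m := by
            have h4 := hg a.1 m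
            rw [hm', hy', ha] at h4
            rw [← h4, hm']
          exact injL h3
        exact ⟨⟨⟨m, hfm⟩, hgm⟩, Subtype.ext (Subtype.ext hm')⟩
    have hrange : (Set.range fun y : {y : Q | g y = y} => f y.1) = Set.range f := by
      ext r
      constructor
      · rintro ⟨y, rfl⟩
        exact ⟨y.1, rfl⟩
      · rintro ⟨x, rfl⟩
        obtain ⟨y, hy1, hy2⟩ := exists_fix hf hp hq hqp hcard' g hfg hgk x
        exact ⟨⟨y, hy2⟩, hy1⟩
    rw [hrange] at hS
    refine ⟨n - i, ?_⟩
    rw [hS, hQ, mul_assoc, ← pow_add, Nat.add_sub_cancel' hi]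

end H675HL
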