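import Pool.Agent.H675R4.HL.Stmts

/-!
# The quotient of an automorphic loop by a normal subloop
-/

set_option autoImplicit false
set_option linter.unusedSectionVars false
set_option linter.unusedVariables false

namespace H675HL

namespace Quo

variable {Q : Type} [AL Q]

lemma cancL (a : Q) {x y : Q} (h : a * x = a * y) : x = y := (AL.bijL a).1 h

lemma cancR (a : Q) {x y : Q} (h : x * a = y * a) : x = y := (AL.bijR a).1 h

lemma solL (a b : Q) : ∃ x, a * x = b := (AL.bijL a).2 b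

lemma solR (a b : Q) : ∃ x, x * a = b := (AL.bijR a).2 b

/-- injective relations on a finite set are surjective -/
lemma surj_of_inj [Finite Q] (M : Set Q) (R : Q → Q → Prop)
    (h1 : ∀ m ∈ M, ∃ m' ∈ M, R m m') (h2 : ∀ m1 m2 m', R m1 m' → R m2 m' → m1 = m2) :
    ∀ m' ∈ M, ∃ m ∈ M, R m m' := by
  choose! φ hφ hR using h1
  let ψ : M → M := fun m => ⟨φ m, hφ m m.2⟩
  have hψ : Function.Injective ψ := by
    intro a b hab
    have h3 : φ a = φ b := congrArg Subtype.val hab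
    apply Subtype.ext
    apply h2 a b (φ a) (hR a a.2)
    rw [h3]
    exact hR b b.2
  have hs := Finite.surjective_of_injective hψ
  intro m' hm'
  obtain ⟨m, hm⟩ := hs ⟨m', hm'⟩
  have h4 : φ m = m' := congrArg Subtype.val hm
  exact ⟨m, m.2, h4 ▸ hR m m.2⟩

variable [Finite Q] {M : Set Q}

lemma n1 (h : Normal M) (x : Q) {m : Q} (hm : m ∈ M) : ∃ m' ∈ M, x * m = m' * x :=
  (h.2 x x m hm).1

lemma n2 (h : Normal M) (x y : Q) {m : Q} (hm : m ∈ M) : ∃ m' ∈ M, (m * x) * y = m' * (x * y) :=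
  (h.2 x y m hm).2.1

lemma n3 (h : Normal M) (x y : Q) {m : Q} (hm : m ∈ M) : ∃ m' ∈ M, y * (x * m) = (y * x) * m' :=
  (h.2 x y m hm).2.2

lemma n1' (h : Normal M) (x : Q) {m' : Q} (hm : m' ∈ M) : ∃ m ∈ M, x * m = m' * x :=
  surj_of_inj M (fun m m' => x * m = m' * x) (fun m hm => n1 h x hm)
    (fun m1 m2 m' e1 e2 => cancL x (e1.trans e2.symm)) m' hm

lemma n2' (h : Normal M) (x y : Q) {m' : Q} (hm : m' ∈ M) :
    ∃ m ∈ M, (m * x) * y = m' * (x * y) :=
  surj_of_inj M (fun m m' => (m * x) * y = m' * (x * y)) (fun m hm => n2 h x y hm)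
    (fun m1 m2 m' e1 e2 => cancR x (cancR y (e1.trans e2.symm))) m' hm

lemma n3' (h : Normal M) (x y : Q) {m' : Q} (hm : m' ∈ M) :
    ∃ m ∈ M, y * (x * m) = (y * x) * m' :=
  surj_of_inj M (fun m m' => y * (x * m) = (y * x) * m') (fun m hm => n3 h x y hm)
    (fun m1 m2 m' e1 e2 => cancL x (cancL y (e1.trans e2.symm))) m' hm

lemma inv' (h : Normal M) {m : Q} (hm : m ∈ M) : ∃ m' ∈ M, m' * m = 1 := by
  obtain ⟨m', hm', he⟩ := surj_of_inj M (fun m' c => m' * m = c)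
    (fun m' hm' => ⟨m' * m, h.1.2 m' hm' m hm, rfl⟩)
    (fun m1 m2 c e1 e2 => cancR m (e1.trans e2.symm)) 1 h.1.1
  exact ⟨m', hm', he⟩

/-- the congruence -/
def rel (M : Set Q) (x y : Q) : Prop := ∃ m ∈ M, y = m * x

lemma rel_refl (h : Normal M) (x : Q) : rel M x x := ⟨1, h.1.1, (AL.one_mul' x).symm⟩

lemma rel_symm (h : Normal M) {x y : Q} (hxy : rel M x y) : rel M y x := by
  obtain ⟨m, hm, rfl⟩ := hxy
  obtain ⟨m2, hm2, he⟩ := inv' h hm
  obtain ⟨m3, hm3, he3⟩ := n2 h m x hm2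
  refine ⟨m3, hm3, ?_⟩
  rw [← he3, he, AL.one_mul']

lemma rel_trans (h : Normal M) {x y z : Q} (hxy : rel M x y) (hyz : rel M y z) : rel M x z := by
  obtain ⟨m, hm, rfl⟩ := hxy
  obtain ⟨m2, hm2, rfl⟩ := hyz
  obtain ⟨m4, hm4, he⟩ := n2' h m x hm2
  exact ⟨m4 * m, h.1.2 _ hm4 _ hm, he.symm⟩

/-- the setoid -/
def st (h : Normal M) : Setoid Q :=
  ⟨rel M, rel_refl h, fun hxy => rel_symm h hxy, fun hxy hyz => rel_trans h hxy hyz⟩

lemma rel_mulR (h : Normal M) {x x' : Q} (y : Q) (hx : rel M x x') : rel M (x * y) (x' * y) := by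
  obtain ⟨m, hm, rfl⟩ := hx
  obtain ⟨m', hm', he⟩ := n2 h x y hm
  exact ⟨m', hm', he⟩

lemma rel_mulL (h : Normal M) (x : Q) {y y' : Q} (hy : rel M y y') : rel M (x * y) (x * y') := by
  obtain ⟨m, hm, rfl⟩ := hy
  obtain ⟨m2, hm2, he2⟩ := n1' h y hm
  obtain ⟨m3, hm3, he3⟩ := n3 h y x hm2
  obtain ⟨m4, hm4, he4⟩ := n1 h (x * y) hm3
  exact ⟨m4, hm4, by rw [← he2, he3, he4]⟩

lemma rel_cancL (h : Normal M) (a : Q) {x y : Q} (hxy : rel M (a * x) (a * y)) : rel M x y := by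
  obtain ⟨m, hm, he⟩ := hxy
  obtain ⟨m2, hm2, he2⟩ := n1' h (a * x) hm
  obtain ⟨m3, hm3, he3⟩ := n3' h x a hm2
  obtain ⟨m4, hm4, he4⟩ := n1 h x hm3
  refine ⟨m4, hm4, ?_⟩
  rw [← he4]
  apply cancL a
  rw [he, ← he2, he3]

lemma rel_cancR (h : Normal M) (a : Q) {x y : Q} (hxy : rel M (x * a) (y * a)) : rel M x y := by
  obtain ⟨m, hm, he⟩ := hxy
  obtain ⟨m2, hm2, he2⟩ := n2' h x a hm
  refine ⟨m2, hm2, ?_⟩
  apply cancR a
  rw [he, he2]

/-- the quotient -/
def QM (h : Normal M) : Type := Quotient (st h)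

/-- the projection -/
def pr (h : Normal M) (x : Q) : QM h := Quotient.mk (st h) x

lemma pr_eq (h : Normal M) {x y : Q} : pr h x = pr h y ↔ rel M x y := by
  unfold pr
  exact Quotient.eq (r := st h)

lemma pr_surj (h : Normal M) (X : QM h) : ∃ x, pr h x = X := Quotient.exists_rep X

noncomputable instance mulQM (h : Normal M) : Mul (QM h) :=
  ⟨fun X Y => pr h (Quotient.out X * Quotient.out Y)⟩

instance oneQM (h : Normal M) : One (QM h) := ⟨pr h 1⟩

lemma pr_one (h : Normal M) : pr h 1 = 1 := rfl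

lemma pr_mul (h : Normal M) (x y : Q) : pr h (x * y) = pr h x * pr h y := by
  change pr h (x * y) = pr h (Quotient.out (pr h x) * Quotient.out (pr h y))
  have e1 : pr h (Quotient.out (pr h x)) = pr h x := Quotient.out_eq _
  have e2 : pr h (Quotient.out (pr h y)) = pr h y := Quotient.out_eq _
  rw [pr_eq] at e1 e2
  rw [pr_eq]
  exact rel_symm h (rel_trans h (rel_mulR h _ e1) (rel_mulL h _ e2))

lemma pr_cancL (h : Normal M) (a : Q) {x y : Q} (e : pr h (a * x) = pr h (a * y)) :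
    pr h x = pr h y := by
  rw [pr_eq] at e ⊢
  exact rel_cancL h a e

lemma pr_cancR (h : Normal M) (a : Q) {x y : Q} (e : pr h (x * a) = pr h (y * a)) :
    pr h x = pr h y := by
  rw [pr_eq] at e ⊢
  exact rel_cancR h a e

/-- the loop structure -/
noncomputable instance alQM (h : Normal M) : AL (QM h) where
  one_mul' X := by
    obtain ⟨x, rfl⟩ := pr_surj h X
    rw [← pr_one, ← pr_mul, AL.one_mul']
  mul_one' X := by
    obtain ⟨x, rfl⟩ := pr_surj h X
    rw [← pr_one, ← pr_mul, AL.mul_one']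
  bijL A := by
    obtain ⟨a, rfl⟩ := pr_surj h A
    constructor
    · intro X Y e
      obtain ⟨x, rfl⟩ := pr_surj h X
      obtain ⟨y, rfl⟩ := pr_surj h Y
      simp only at e
      rw [← pr_mul, ← pr_mul] at e
      exact pr_cancL h a e
    · intro Y
      obtain ⟨y, rfl⟩ := pr_surj h Y
      obtain ⟨x, hx⟩ := solL a y
      refine ⟨pr h x, ?_⟩
      simp only
      rw [← pr_mul, hx]
  bijR A := by
    obtain ⟨a, rfl⟩ := pr_surj h A
    constructor
    · intro X Y e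
      obtain ⟨x, rfl⟩ := pr_surj h X
      obtain ⟨y, rfl⟩ := pr_surj h Y
      simp only at e
      rw [← pr_mul, ← pr_mul] at e
      exact pr_cancR h a e
    · intro Y
      obtain ⟨y, rfl⟩ := pr_surj h Y
      obtain ⟨x, hx⟩ := solR a y
      refine ⟨pr h x, ?_⟩
      simp only
      rw [← pr_mul, hx]
  autL X Y U V A B e1 e2 := by
    obtain ⟨x, rfl⟩ := pr_surj h X
    obtain ⟨y, rfl⟩ := pr_surj h Y
    obtain ⟨u, rfl⟩ := pr_surj h U
    obtain ⟨v, rfl⟩ := pr_surj h V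
    obtain ⟨a, rfl⟩ := pr_surj h A
    obtain ⟨b, rfl⟩ := pr_surj h B
    simp only [← pr_mul] at e1 e2
    obtain ⟨a', ha⟩ := solL (x * y) (x * (y * u))
    obtain ⟨b', hb⟩ := solL (x * y) (x * (y * v))
    rw [← ha] at e1
    rw [← hb] at e2
    rw [pr_cancL h _ e1, pr_cancL h _ e2]
    simp only [← pr_mul]
    rw [AL.autL x y u v a' b' ha hb]
  autR X Y U V A B e1 e2 := by
    obtain ⟨x, rfl⟩ := pr_surj h X
    obtain ⟨y, rfl⟩ := pr_surj h Y
    obtain ⟨u, rfl⟩ := pr_surj h U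
    obtain ⟨v, rfl⟩ := pr_surj h V
    obtain ⟨a, rfl⟩ := pr_surj h A
    obtain ⟨b, rfl⟩ := pr_surj h B
    simp only [← pr_mul] at e1 e2
    obtain ⟨a', ha⟩ := solR (y * x) ((u * y) * x)
    obtain ⟨b', hb⟩ := solR (y * x) ((v * y) * x)
    rw [← ha] at e1
    rw [← hb] at e2
    rw [pr_cancR h _ e1, pr_cancR h _ e2]
    simp only [← pr_mul]
    rw [AL.autR x y u v a' b' ha hb]
  autT X U V A B e1 e2 := by
    obtain ⟨x, rfl⟩ := pr_surj h X
    obtain ⟨u, rfl⟩ := pr_surj h U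
    obtain ⟨v, rfl⟩ := pr_surj h V
    obtain ⟨a, rfl⟩ := pr_surj h A
    obtain ⟨b, rfl⟩ := pr_surj h B
    simp only [← pr_mul] at e1 e2
    obtain ⟨a', ha⟩ := solR x (x * u)
    obtain ⟨b', hb⟩ := solR x (x * v)
    rw [← ha] at e1
    rw [← hb] at e2
    rw [pr_cancR h _ e1, pr_cancR h _ e2]
    simp only [← pr_mul]
    rw [AL.autT x u v a' b' ha hb]

instance finQM (h : Normal M) : Finite (QM h) :=
  Finite.of_surjective (pr h) (pr_surj h)

/-- cardinality of preimages -/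
lemma card_pre (h : Normal M) (T : Set (QM h)) :
    Nat.card (pr h ⁻¹' T : Set Q) = Nat.card M * Nat.card T := by
  rw [← Nat.card_prod]
  symm
  have hpm : ∀ m ∈ M, ∀ x : Q, pr h (m * x) = pr h x := by
    intro m hm x
    rw [pr_eq]
    exact rel_symm h ⟨m, hm, rfl⟩
  have hout : ∀ X : QM h, pr h (Quotient.out X) = X := fun X => Quotient.out_eq _
  let F : M × T → (pr h ⁻¹' T : Set Q) := fun p =>
    ⟨p.1.1 * Quotient.out p.2.1, by
      rw [Set.mem_preimage, hpm _ p.1.2, hout]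
      exact p.2.2⟩
  apply Nat.card_congr
  refine Equiv.ofBijective F ⟨?_, ?_⟩
  · rintro ⟨⟨m, hm⟩, ⟨t, ht⟩⟩ ⟨⟨m', hm'⟩, ⟨t', ht'⟩⟩ e
    have e1 : m * Quotient.out t = m' * Quotient.out t' := congrArg Subtype.val e
    have e2 : t = t' := by
      have e3 := congrArg (pr h) e1
      rwa [hpm _ hm, hpm _ hm', hout, hout] at e3
    subst e2
    have e4 := cancR _ e1
    subst e4
    rfl
  · rintro ⟨y, hy⟩
    have e1 : pr h (Quotient.out (pr h y)) = pr h y := hout _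
    rw [pr_eq] at e1
    obtain ⟨m, hm, he⟩ := e1
    refine ⟨⟨⟨m, hm⟩, ⟨pr h y, hy⟩⟩, ?_⟩
    apply Subtype.ext
    exact he.symm

end Quo

open Quo in
theorem taskQuot : TaskQuot := by
  intro Q K _ _ _ f M P hK hf hM hM1 hMf hIH
  obtain ⟨hmul, hcomm, hassoc⟩ := hf
  have hM0 : (1 : Q) ∈ M := hM.1.1
  -- the induced homomorphism
  have hfr : ∀ x y : Q, rel M x y → f x = f y := by
    rintro x _ ⟨m, hm, rfl⟩
    rw [hmul, hMf m hm, one_mul]
  let f' : QM hM → K := fun X => f (Quotient.out X)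
  have hf' : ∀ x, f' (pr hM x) = f x := by
    intro x
    have e1 : pr hM (Quotient.out (pr hM x)) = pr hM x := Quotient.out_eq _
    rw [pr_eq] at e1
    exact hfr _ _ e1
  have hgood : Good (QM hM) := by
    refine ⟨K, inferInstance, f', hK, ?_, ?_, ?_⟩
    · intro X Y
      obtain ⟨x, rfl⟩ := pr_surj hM X
      obtain ⟨y, rfl⟩ := pr_surj hM Y
      rw [← pr_mul, hf', hf', hf', hmul]
    · intro X Y hX hY
      obtain ⟨x, rfl⟩ := pr_surj hM X
      obtain ⟨y, rfl⟩ := pr_surj hM Y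
      rw [hf'] at hX hY
      rw [← pr_mul, ← pr_mul, hcomm x y hX hY]
    · intro X Y Z hX hY hZ
      obtain ⟨x, rfl⟩ := pr_surj hM X
      obtain ⟨y, rfl⟩ := pr_surj hM Y
      obtain ⟨z, rfl⟩ := pr_surj hM Z
      rw [hf'] at hX hY hZ
      simp only [← pr_mul]
      rw [hassoc x y z hX hY hZ]
  have hcard : Nat.card Q = Nat.card M * Nat.card (Set.univ : Set (QM hM)) := by
    rw [← card_pre hM Set.univ, Set.preimage_univ]
    exact (Nat.card_congr (Equiv.Set.univ Q)).symm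
  have hcardu : Nat.card (Set.univ : Set (QM hM)) = Nat.card (QM hM) :=
    Nat.card_congr (Equiv.Set.univ _)
  have hMnt : 1 < Nat.card M := by
    rw [Finite.one_lt_card_iff_nontrivial]
    have : ∃ m ∈ M, m ≠ 1 := by
      by_contra hcon
      push Not at hcon
      apply hM1
      ext m
      rw [Set.mem_singleton_iff]
      exact ⟨fun hm => hcon m hm, fun hm => hm ▸ hM0⟩
    obtain ⟨m, hm, hne⟩ := this
    exact ⟨⟨⟨m, hm⟩, ⟨1, hM0⟩, fun e => hne (congrArg Subtype.val e)⟩⟩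
  have : Nonempty (QM hM) := ⟨1⟩
  have hpos : 0 < Nat.card (QM hM) := Nat.card_pos
  have hlt : Nat.card (QM hM) < Nat.card Q := by
    rw [hcard, hcardu]
    nlinarith
  obtain ⟨H, -, hHs, k, hk, hk1, hk2⟩ := hIH (QM hM) hlt hgood
  refine ⟨pr hM ⁻¹' H, ⟨?_, ?_⟩, ?_, Nat.card H, k, ?_, ?_, hk1, hk2⟩
  · exact hHs.1
  · intro a ha b hb
    rw [Set.mem_preimage] at ha hb ⊢
    rw [pr_mul]
    exact hHs.2 _ ha _ hb
  · intro m hm
    rw [Set.mem_preimage]
    have e1 : pr hM m = 1 := by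
      rw [← pr_one, pr_eq]
      exact rel_symm hM ⟨m, hm, (AL.mul_one' m).symm⟩
    rw [e1]
    exact hHs.1
  · exact card_pre hM H
  · rw [card_pre hM H, hcard, ← hk, mul_assoc]

end H675HL
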