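import Pool.Agent.H675R4.HL.Stmts

set_option autoImplicit false

namespace H675HL

theorem exists_prime_part {A : Type} [CommGroup A] [Finite A] (p : ℕ) (hp : p.Prime) :
    ∃ (R : Subgroup A) (n m : ℕ), (∀ a : A, a ∈ R ↔ a ^ m = 1) ∧ ¬ p ∣ Nat.card R ∧
      Nat.card A = p ^ n * Nat.card R := by
  have : Fact p.Prime := ⟨hp⟩
  obtain ⟨S⟩ : Nonempty (Sylow p A) := inferInstance
  obtain ⟨R, hR⟩ := Subgroup.exists_right_complement'_of_coprime (N := (S : Subgroup A))
    (Sylow.card_coprime_index S)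
  have hcard : Nat.card S * Nat.card R = Nat.card A := hR.card_mul_card
  have hidx : Nat.card S * (S : Subgroup A).index = Nat.card A := Subgroup.card_mul_index _
  have hpos : 0 < Nat.card S := Nat.card_pos
  have hRi : Nat.card R = (S : Subgroup A).index :=
    Nat.eq_of_mul_eq_mul_left hpos (hcard.trans hidx.symm)
  have hnd : ¬ p ∣ (S : Subgroup A).index := S.not_dvd_index
  have hcop : (Nat.card S).Coprime (Nat.card R) := by
    rw [hRi]
    exact Sylow.card_coprime_index S
  refine ⟨R, (Nat.card A).factorization p, Nat.card R, ?_, ?_, ?_⟩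
  · intro a
    constructor
    · intro ha
      have := congrArg Subtype.val (pow_card_eq_one' (G := R) (x := ⟨a, ha⟩))
      exact this
    · intro ha
      obtain ⟨⟨s, r⟩, hsr, -⟩ := hR.existsUnique a
      have hsr' : (s : A) * (r : A) = a := hsr
      have hr : (r : A) ^ Nat.card R = 1 := by
        have := congrArg Subtype.val (pow_card_eq_one' (G := R) (x := ⟨r, r.2⟩))
        exact this
      have hs1 : (s : A) ^ Nat.card R = 1 := by
        rw [← hsr', mul_pow, hr, mul_one] at ha
        exact ha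
      have hs2 : (s : A) ^ Nat.card S = 1 := by
        have := congrArg Subtype.val (pow_card_eq_one' (G := (S : Subgroup A)) (x := ⟨s, s.2⟩))
        exact this
      have hs : (s : A) = 1 := by
        have h1 := orderOf_dvd_of_pow_eq_one hs1
        have h2 := orderOf_dvd_of_pow_eq_one hs2
        have h3 := Nat.dvd_gcd h2 h1
        rw [hcop, Nat.dvd_one] at h3
        exact orderOf_eq_one_iff.1 h3
      rw [← hsr', hs, one_mul]
      exact r.2
  · rw [hRi]
    exact hnd
  · rw [Sylow.card_eq_multiplicity] at hcard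
    exact hcard.symm

section

variable {Q K : Type} [AL Q] [Group K] {f : Q → K}

theorem f_one (hf : Ker f) : f 1 = 1 := by
  have h := hf.1 1 1
  rw [AL.one_mul'] at h
  exact left_eq_mul.1 h

theorem g_one {g : Equiv.Perm Q} (hg : IsAut g) : g 1 = 1 := by
  have h := hg 1 1
  rw [AL.one_mul'] at h
  have h2 : g 1 * 1 = g 1 * g 1 := by rw [AL.mul_one', ← h]
  exact ((AL.bijL (g 1)).1 h2).symm

/-- the kernel as a group -/
@[reducible] noncomputable def kerGroup (hf : Ker f) : CommGroup {m : Q // f m = 1} :=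
  have hinv : ∀ a : {m : Q // f m = 1}, ∃ b : {m : Q // f m = 1}, b.1 * a.1 = 1 := by
    intro a
    obtain ⟨b, hb⟩ := (AL.bijR a.1).2 1
    have hb' : b * a.1 = 1 := hb
    refine ⟨⟨b, ?_⟩, hb'⟩
    have h := hf.1 b a.1
    rw [hb', f_one hf, a.2, mul_one] at h
    exact h.symm
  { mul := fun a b => ⟨a.1 * b.1, by rw [hf.1, a.2, b.2, mul_one]⟩
    one := ⟨1, f_one hf⟩
    inv := fun a => (hinv a).choose
    mul_assoc := fun a b c => Subtype.ext (hf.2.2 _ _ _ a.2 b.2 c.2)
    one_mul := fun a => Subtype.ext (AL.one_mul' _)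
    mul_one := fun a => Subtype.ext (AL.mul_one' _)
    inv_mul_cancel := fun a => Subtype.ext (hinv a).choose_spec
    mul_comm := fun a b => Subtype.ext (hf.2.1 _ _ a.2 b.2) }

end

theorem taskR : TaskChar → TaskR := by
  intro hchar Q K _ _ _ f p hf hp
  let _ := kerGroup hf
  have hmul : ∀ a b : {m : Q // f m = 1}, (a * b).1 = a.1 * b.1 := fun _ _ => rfl
  have hone : (1 : {m : Q // f m = 1}).1 = 1 := rfl
  obtain ⟨R, n, m, hR, hnd, hcard⟩ := exists_prime_part (A := {m : Q // f m = 1}) p hp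
  have hc : Nat.card ↥(Subtype.val '' (R : Set {m : Q // f m = 1}) : Set Q) = Nat.card R :=
    Nat.card_image_of_injective Subtype.val_injective _
  have hker : ∀ x ∈ (Subtype.val '' (R : Set {m : Q // f m = 1}) : Set Q), f x = 1 := by
    rintro _ ⟨a, -, rfl⟩
    exact a.2
  refine ⟨Subtype.val '' (R : Set {m : Q // f m = 1}), n, ?_, hker, ?_, ?_⟩
  · refine hchar Q K f _ hf ⟨?_, ?_⟩ hker ?_
    · exact ⟨1, R.one_mem, hone⟩
    · rintro _ ⟨a, ha, rfl⟩ _ ⟨b, hb, rfl⟩
      exact ⟨a * b, R.mul_mem ha hb, hmul a b⟩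
    · rintro g hg ⟨c, hc⟩ _ ⟨a, ha, rfl⟩
      have hgk : ∀ x, f x = 1 → f (g x) = 1 := by
        intro x hx
        rw [hc, hx, mul_one, mul_inv_cancel]
      let φ : {m : Q // f m = 1} →* {m : Q // f m = 1} :=
        MonoidHom.mk' (fun a => ⟨g a.1, hgk a.1 a.2⟩) (fun a b => Subtype.ext (hg a.1 b.1))
      refine ⟨φ a, ?_, rfl⟩
      have ha' : a ^ m = 1 := (hR a).1 ha
      show φ a ∈ R
      rw [hR, ← map_pow, ha', map_one]
  · rw [hc]
    exact hnd
  · rw [hc]
    exact hcard

end H675HL
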