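import Pool.Agent.H675R4.HL.Stmts

set_option autoImplicit false

/-!
# Schur-Zassenhaus for loops which are groups
-/

namespace H675HL

namespace SZ

/-- the group structure on an associative loop -/
noncomputable def grp (Q : Type) [AL Q] (h : ∀ x y z : Q, (x * y) * z = x * (y * z)) : Group Q :=
  { mul := fun x y => x * y
    one := 1
    mul_assoc := h
    one_mul := AL.one_mul'
    mul_one := AL.mul_one'
    inv := fun a => Classical.choose ((AL.bijR a).2 1)
    inv_mul_cancel := fun a => Classical.choose_spec ((AL.bijR a).2 1) }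

theorem grp_case {G K : Type} [Group G] [Finite G] [Group K] [Finite K] (f : G →* K)
    (hs : Function.Surjective f) (hc : (Nat.card K).Coprime (Nat.card f.ker)) :
    ∃ S : Subgroup G, Nat.card S = Nat.card K := by
  have hi : f.ker.index = Nat.card K := by
    rw [Subgroup.index_ker]
    exact Nat.card_congr ((Equiv.setCongr (by
      rw [MonoidHom.coe_range, hs.range_eq])).trans (Equiv.Set.univ K))
  obtain ⟨H, hH⟩ := Subgroup.exists_right_complement'_of_coprime (N := f.ker) (by
    rw [hi]
    exact hc.symm)
  refine ⟨H, ?_⟩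
  have h1 := hH.card_mul
  have h2 := Subgroup.card_mul_index f.ker
  rw [hi, ← h1] at h2
  have h3 : 0 < Nat.card f.ker := Nat.card_pos
  exact (Nat.eq_of_mul_eq_mul_left h3 h2).symm

end SZ

theorem taskSZ : TaskSZ := by
  intro Q K _ _ _ _ f hs hK hc ha
  letI G : Group Q := SZ.grp Q ha
  let F : Q →* K := MonoidHom.mk' f (fun x y => hK.1 x y)
  have hker : Nat.card F.ker = Nat.card {m : Q | f m = 1} := by
    refine Nat.card_congr (Equiv.subtypeEquivRight fun x => ?_)
    rw [MonoidHom.mem_ker]
    rfl
  obtain ⟨S, hS⟩ := SZ.grp_case F hs (by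
    rw [hker]
    exact hc)
  exact ⟨(S : Set Q), ⟨S.one_mem, fun a ha b hb => S.mul_mem ha hb⟩, hS⟩

end H675HL
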