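import Pool.Agent.H675R4.HL.Stmts

set_option autoImplicit false

namespace H675HL
namespace Str

variable {Q : Type} [AL Q]

theorem cL {a x y : Q} (h : a * x = a * y) : x = y := (AL.bijL a).1 h
theorem cR {a x y : Q} (h : x * a = y * a) : x = y := (AL.bijR a).1 h

noncomputable def Lm (x : Q) : Equiv.Perm Q := Equiv.ofBijective _ (AL.bijL x)
noncomputable def Rm (x : Q) : Equiv.Perm Q := Equiv.ofBijective _ (AL.bijR x)

theorem Lm_apply (x y : Q) : Lm x y = x * y := rfl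
theorem Rm_apply (x y : Q) : Rm x y = y * x := rfl

noncomputable def T (x : Q) : Equiv.Perm Q := (Rm x)⁻¹ * Lm x
noncomputable def Lq (x y : Q) : Equiv.Perm Q := (Lm (x * y))⁻¹ * (Lm x * Lm y)
noncomputable def Rq (y z : Q) : Equiv.Perm Q := (Rm (y * z))⁻¹ * (Rm z * Rm y)

theorem T_spec (x u : Q) : T x u * x = x * u := by
  have h : Rm x ((Rm x)⁻¹ (Lm x u)) = Lm x u := (Rm x).apply_symm_apply _
  exact h

theorem Lq_spec (x y u : Q) : (x * y) * Lq x y u = x * (y * u) := by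
  have h : Lm (x * y) ((Lm (x * y))⁻¹ (Lm x (Lm y u))) = Lm x (Lm y u) :=
    (Lm (x * y)).apply_symm_apply _
  exact h

theorem Rq_spec (y z u : Q) : Rq y z u * (y * z) = (u * y) * z := by
  have h : Rm (y * z) ((Rm (y * z))⁻¹ (Rm z (Rm y u))) = Rm z (Rm y u) :=
    (Rm (y * z)).apply_symm_apply _
  exact h

theorem T_aut (x : Q) : IsAut (T x) := by
  intro u v
  apply cR (a := x)
  rw [T_spec]
  exact (AL.autT x u v _ _ (T_spec x u) (T_spec x v)).symm

theorem Lq_aut (x y : Q) : IsAut (Lq x y) := by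
  intro u v
  apply cL (a := x * y)
  rw [Lq_spec]
  exact (AL.autL x y u v _ _ (Lq_spec x y u) (Lq_spec x y v)).symm

theorem Rq_aut (y z : Q) : IsAut (Rq y z) := by
  intro u v
  apply cR (a := y * z)
  rw [Rq_spec]
  exact (AL.autR z y u v _ _ (Rq_spec y z u) (Rq_spec y z v)).symm

theorem aut_inv {g : Equiv.Perm Q} (hg : IsAut g) : IsAut g⁻¹ := by
  intro x y
  apply g.injective
  rw [hg]
  simp

theorem aut_mul {g h : Equiv.Perm Q} (hg : IsAut g) (hh : IsAut h) : IsAut (g * h) := by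
  intro x y
  simp only [Equiv.Perm.mul_apply]
  rw [hh, hg]

theorem aut_one {g : Equiv.Perm Q} (hg : IsAut g) : g 1 = 1 := by
  have h := hg 1 1
  rw [AL.one_mul'] at h
  have h2 : g 1 * 1 = g 1 * g 1 := by rw [AL.mul_one', ← h]
  exact (cL h2).symm

variable {K : Type} [Group K] (f : Q → K)

theorem f_one (hf : ∀ x y, f (x * y) = f x * f y) : f 1 = 1 := by
  have h := hf 1 1
  rw [AL.one_mul'] at h
  exact (mul_eq_left.1 h.symm)

variable (hf : ∀ x y : Q, f (x * y) = f x * f y)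
  (hE : ∀ g : Equiv.Perm Q, IsAut g → (∀ x, f (g x) = f x) → ∀ m, f m = 1 → g m = m)

include hf

theorem f_T (x u : Q) : f (T x u) = f x * f u * (f x)⁻¹ := by
  have h := congrArg f (T_spec x u)
  rw [hf, hf] at h
  rw [← h]; group

theorem f_Tinv (x u : Q) : f ((T x)⁻¹ u) = (f x)⁻¹ * f u * f x := by
  have h := f_T f hf x ((T x)⁻¹ u)
  have h0 : T x ((T x)⁻¹ u) = u := (T x).apply_symm_apply u
  rw [h0] at h
  rw [h]; group

theorem f_Lq (x y u : Q) : f (Lq x y u) = f u := by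
  have h := congrArg f (Lq_spec x y u)
  simp only [hf] at h
  rw [mul_assoc] at h
  exact mul_left_cancel (mul_left_cancel h)

theorem f_Rq (y z u : Q) : f (Rq y z u) = f u := by
  have h := congrArg f (Rq_spec y z u)
  simp only [hf] at h
  rw [mul_assoc] at h
  exact mul_right_cancel h

include hE

theorem kL {x y m : Q} (hm : f m = 1) : x * (y * m) = (x * y) * m := by
  have h := hE (Lq x y) (Lq_aut x y) (fun u => f_Lq f hf x y u) m hm
  rw [← Lq_spec, h]

theorem kRq {y z m : Q} (hm : f m = 1) : Rq y z m = m :=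
  hE (Rq y z) (Rq_aut y z) (fun u => f_Rq f hf y z u) m hm

theorem T_ind {x y m : Q} (hxy : f x = f y) (hm : f m = 1) : T x m = T y m := by
  have h := hE ((T x)⁻¹ * T y) (aut_mul (aut_inv (T_aut x)) (T_aut y)) (by
    intro u
    rw [Equiv.Perm.mul_apply, f_Tinv f hf, f_T f hf, hxy]; group) m hm
  rw [Equiv.Perm.mul_apply, Equiv.Perm.inv_eq_iff_eq] at h
  exact h.symm

theorem T_mul {x y m : Q} (hm : f m = 1) : T (x * y) m = T x (T y m) := by
  have h := hE ((T (x * y))⁻¹ * (T x * T y))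
    (aut_mul (aut_inv (T_aut _)) (aut_mul (T_aut x) (T_aut y))) (by
    intro u
    rw [Equiv.Perm.mul_apply, Equiv.Perm.mul_apply, f_Tinv f hf, f_T f hf, f_T f hf, hf]; group) m hm
  rw [Equiv.Perm.mul_apply, Equiv.Perm.inv_eq_iff_eq] at h
  exact h.symm

omit hE in
theorem f_Tm {x m : Q} (hm : f m = 1) : f (T x m) = 1 := by
  rw [f_T f hf, hm]; group

omit hE in
theorem f_Tim {x m : Q} (hm : f m = 1) : f ((T x)⁻¹ m) = 1 := by
  rw [f_Tinv f hf, hm]; group

/-- moving kernel elements to the right -/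
theorem kR {x y m : Q} (hm : f m = 1) : (x * m) * y = (x * y) * (T y)⁻¹ m := by
  have h1 : T y ((T y)⁻¹ x * (T y)⁻¹ m) = x * m := by
    rw [T_aut]; simp
  have h2 : y * (T y)⁻¹ x = x * y := by
    rw [← T_spec]; simp
  rw [← h1, T_spec, kL f hf hE (f_Tim f hf hm), h2]

theorem Tinv_mul {x y m : Q} (hm : f m = 1) : (T (x * y))⁻¹ m = (T y)⁻¹ ((T x)⁻¹ m) := by
  rw [Equiv.Perm.inv_eq_iff_eq, T_mul f hf hE (f_Tim f hf (f_Tim f hf hm))]
  simp

end Str

section

variable {Q : Type} [AL Q] {K : Type} [Group K] (f : Q → K)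

/-- the kernel -/
def V (_f : Q → K) : Type := {m : Q // _f m = 1}

open Str

/-- constructor -/
def mkV (m : Q) (h : f m = 1) : V f := ⟨m, h⟩

/-- the kernel as an additive group -/
@[instance_reducible]
noncomputable def vGroup (hf : ∀ x y : Q, f (x * y) = f x * f y)
    (hc : ∀ x y : Q, f x = 1 → f y = 1 → x * y = y * x)
    (ha : ∀ x y z : Q, f x = 1 → f y = 1 → f z = 1 → (x * y) * z = x * (y * z)) :
    AddCommGroup (V f) :=
  letI : Add (V f) := ⟨fun a b => ⟨a.1 * b.1, by rw [hf, a.2, b.2, one_mul]⟩⟩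
  letI : Zero (V f) := ⟨⟨1, f_one f hf⟩⟩
  letI : Neg (V f) := ⟨fun a => ⟨(Lm a.1)⁻¹ 1, by
    have h : a.1 * (Lm a.1)⁻¹ 1 = 1 := (Lm a.1).apply_symm_apply 1
    have h2 := congrArg f h
    rw [hf, a.2, one_mul, f_one f hf] at h2
    exact h2⟩⟩
  { AddGroup.ofLeftAxioms (G := V f) (fun a b c => Subtype.ext (ha _ _ _ a.2 b.2 c.2))
      (fun a => Subtype.ext (AL.one_mul' a.1))
      (fun a => Subtype.ext (by
        have h : a.1 * (Lm a.1)⁻¹ 1 = 1 := (Lm a.1).apply_symm_apply 1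
        have h2 := congrArg f h
        rw [hf, a.2, one_mul, f_one f hf] at h2
        change (Lm a.1)⁻¹ 1 * a.1 = 1
        rw [hc _ _ h2 a.2, h])) with
    add_comm := fun a b => Subtype.ext (hc _ _ a.2 b.2) }

theorem taskStr (hAlg : TaskAlg) : TaskStr := by
  intro Q K _ _ _ _ f hsol hsurj hKer hcop hirr hE
  obtain ⟨hf, hc, ha⟩ := hKer
  letI : AddCommGroup (V f) := vGroup f hf hc ha
  have add_val : ∀ a b : V f, (a + b).1 = a.1 * b.1 := fun a b => rfl
  have zero_val : (0 : V f).1 = 1 := rfl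
  haveI : Finite (V f) := inferInstanceAs (Finite {m : Q // f m = 1})
  let σ : K → Q := Function.surjInv hsurj
  have hσ : ∀ k, f (σ k) = k := fun k => Function.surjInv_eq hsurj k
  have hT1 : ∀ m, f m = 1 → T (1 : Q) m = m := by
    intro m _
    have h := T_spec (1 : Q) m
    rw [AL.mul_one', AL.one_mul'] at h
    exact h
  letI : DistribMulAction K (V f) :=
    { smul := fun k v => ⟨T (σ k) v.1, f_Tm f hf v.2⟩
      one_smul := fun v => Subtype.ext (by
        change T (σ 1) v.1 = v.1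
        rw [T_ind f hf hE (x := σ 1) (y := 1) (by rw [hσ, f_one f hf]) v.2, hT1 _ v.2])
      mul_smul := fun k l v => Subtype.ext (by
        change T (σ (k * l)) v.1 = T (σ k) (T (σ l) v.1)
        rw [← T_mul f hf hE v.2]
        exact T_ind f hf hE (by rw [hf, hσ, hσ, hσ]) v.2)
      smul_zero := fun k => Subtype.ext (aut_one (T_aut (σ k)))
      smul_add := fun k v w => Subtype.ext (T_aut (σ k) v.1 w.1) }
  have smul_val : ∀ (k : K) (v : V f) (x : Q), f x = k → (k • v).1 = T x v.1 := by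
    intro k v x hx
    change T (σ k) v.1 = T x v.1
    exact T_ind f hf hE (by rw [hσ, hx]) v.2
  have inv_val : ∀ (k : K) (v : V f) (x : Q), f x = k → (k⁻¹ • v).1 = (T x)⁻¹ v.1 := by
    intro k v x hx
    have h := smul_val k (k⁻¹ • v) x hx
    rw [smul_inv_smul] at h
    rw [h]; simp
  have kl : ∀ {x y m : Q}, f m = 1 → x * (y * m) = (x * y) * m := fun h => kL f hf hE h
  have kr : ∀ {x y m : Q}, f m = 1 → (x * m) * y = (x * y) * (T y)⁻¹ m := fun h => kR f hf hE h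
  -- the associator
  have hβ : ∀ x y z : Q, ∃ c : Q, f c = 1 ∧ ((x * y) * z) * c = x * (y * z) := by
    intro x y z
    obtain ⟨c, hc'⟩ := (AL.bijL ((x * y) * z)).2 (x * (y * z))
    simp only at hc'
    refine ⟨c, ?_, hc'⟩
    have h := congrArg f hc'
    simp only [hf] at h
    rw [← mul_assoc (f x)] at h
    exact mul_eq_left.1 h
  choose β hβ1 hβ2 using hβ
  have hβz : ∀ x y z m : Q, f m = 1 → β x y (z * m) = β x y z := by
    intro x y z m hm
    apply cL (a := (x * y) * (z * m))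
    rw [hβ2, kl hm, kl hm, kl hm, ← hβ2, ← kl hm, ← kl (hβ1 x y z), hc _ _ (hβ1 x y z) hm]
  have hβy : ∀ x y z m : Q, f m = 1 → β x (y * m) z = β x y z := by
    intro x y z m hm
    have ht : f ((T z)⁻¹ m) = 1 := f_Tim f hf hm
    apply cL (a := (x * (y * m)) * z)
    rw [hβ2, kl hm, kr hm, kr hm, kl ht, ← hβ2, ← kl ht, ← kl (hβ1 x y z), hc _ _ (hβ1 x y z) ht]
  have hβx : ∀ x y z m : Q, f m = 1 → β (x * m) y z = β x y z := by
    intro x y z m hm
    have ht : f ((T y)⁻¹ m) = 1 := f_Tim f hf hm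
    have ht2 : f ((T z)⁻¹ ((T y)⁻¹ m)) = 1 := f_Tim f hf ht
    apply cL (a := ((x * m) * y) * z)
    rw [hβ2, kr hm, kr hm, kr ht, Tinv_mul f hf hE hm, ← hβ2, ← kl ht2, ← kl (hβ1 x y z),
      hc _ _ (hβ1 x y z) ht2]
  have hdiff : ∀ x x' : Q, f x = f x' → ∃ m, f m = 1 ∧ x' = x * m := by
    intro x x' h
    obtain ⟨m, hm⟩ := (AL.bijL x).2 x'
    simp only at hm
    refine ⟨m, ?_, hm.symm⟩
    have h2 := congrArg f hm
    rw [hf, ← h] at h2
    exact mul_eq_left.1 h2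
  have hβc : ∀ x x' y y' z z' : Q, f x = f x' → f y = f y' → f z = f z' →
      β x y z = β x' y' z' := by
    intro x x' y y' z z' h1 h2 h3
    obtain ⟨m1, hm1, rfl⟩ := hdiff x x' h1
    obtain ⟨m2, hm2, rfl⟩ := hdiff y y' h2
    obtain ⟨m3, hm3, rfl⟩ := hdiff z z' h3
    rw [hβx _ _ _ _ hm1, hβy _ _ _ _ hm2, hβz _ _ _ _ hm3]
  -- the identities
  have hLq : ∀ x y z : Q, Lq x y z = z * β x y z := by
    intro x y z
    apply cL (a := x * y)
    rw [Lq_spec, kl (hβ1 x y z), hβ2]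
  have iA : ∀ x y z w : Q, β x y (z * w) = (T w)⁻¹ (β x y z) * β x y w := by
    intro x y z w
    have ht : f ((T w)⁻¹ (β x y z)) = 1 := f_Tim f hf (hβ1 x y z)
    have h := Lq_aut x y z w
    rw [hLq, hLq, hLq, kl (hβ1 x y w), kr (hβ1 x y z), ← kl (hβ1 x y w)] at h
    exact cL h
  have hRq : ∀ x y z : Q, ∃ r : Q, f r = 1 ∧ Rq y z x = x * r ∧
      β x y z * (T (y * z))⁻¹ r = 1 := by
    intro x y z
    obtain ⟨r, hr, hr2⟩ := hdiff x (Rq y z x) (f_Rq f hf y z x).symm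
    refine ⟨r, hr, hr2, ?_⟩
    have h := Rq_spec y z x
    have ht : f ((T (y * z))⁻¹ r) = 1 := f_Tim f hf hr
    rw [hr2, kr hr, ← hβ2, ← kl ht] at h
    have h3 : (x * y) * z * (β x y z * (T (y * z))⁻¹ r) = (x * y) * z * 1 := by
      rw [h, AL.mul_one']
    exact cL h3
  choose r hr1 hr2 hr3 using hRq
  have iR : ∀ x w y z : Q, r (x * w) y z = (T w)⁻¹ (r x y z) * r w y z := by
    intro x w y z
    have h := Rq_aut y z x w
    rw [hr2, hr2, hr2, kl (hr1 w y z), kr (hr1 x y z), ← kl (hr1 w y z)] at h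
    exact cL h
  have iE : ∀ k x y z : Q, β (T k x) (T k y) (T k z) = T k (β x y z) := by
    intro k x y z
    have h := congrArg (T k) (hβ2 x y z)
    simp only [T_aut k _ _] at h
    apply cL (a := (T k x * T k y) * T k z)
    rw [h, hβ2]
  have iP : ∀ x y z w : Q, (β y z w * β x (y * z) w) * (T w)⁻¹ (β x y z) =
      β (x * y) z w * β x y (z * w) := by
    intro x y z w
    have ht : f ((T w)⁻¹ (β x y z)) = 1 := f_Tim f hf (hβ1 x y z)
    have e1 : x * (y * (z * w)) = (((x * y) * z) * w) * (β (x * y) z w * β x y (z * w)) := by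
      rw [kl (hβ1 x y (z * w)), hβ2, hβ2]
    have e2 : x * (y * (z * w)) = (((x * y) * z) * w) * (((T w)⁻¹ (β x y z) * β x (y * z) w)
        * β y z w) := by
      rw [kl (hβ1 y z w), kl (hβ1 x (y * z) w), ← kr (hβ1 x y z), hβ2, hβ2, ← kl (hβ1 y z w), hβ2]
    have e3 := cL (e1.symm.trans e2)
    rw [e3, hc _ _ (hβ1 y z w) (hβ1 x (y * z) w), ha _ _ _ (hβ1 _ _ _) (hβ1 _ _ _) ht,
      hc (β y z w) _ (hβ1 _ _ _) ht, ← ha _ _ _ (hβ1 _ _ _) ht (hβ1 _ _ _),
      hc (β x (y * z) w) _ (hβ1 _ _ _) ht]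
  -- the function on `K`
  let b : K → K → K → V f := fun k l n => ⟨β (σ k) (σ l) (σ n), hβ1 _ _ _⟩
  have b_val : ∀ k l n x y z, f x = k → f y = l → f z = n → (b k l n).1 = β x y z := by
    intro k l n x y z h1 h2 h3
    exact hβc _ _ _ _ _ _ (by rw [hσ, h1]) (by rw [hσ, h2]) (by rw [hσ, h3])
  have hr4 : ∀ x y z : Q, mkV f (r x y z) (hr1 x y z) =
      -((f y * f z) • b (f x) (f y) (f z)) := by
    intro x y z
    have h : b (f x) (f y) (f z) + (f y * f z)⁻¹ • mkV f (r x y z) (hr1 x y z) = 0 := by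
      apply Subtype.ext
      rw [add_val, b_val _ _ _ x y z rfl rfl rfl, inv_val _ _ (y * z) (hf _ _), zero_val]
      exact hr3 x y z
    have h2 := eq_neg_of_add_eq_zero_right h
    rw [← smul_neg, ← h2, smul_inv_smul]
  have hkey := hAlg K (V f) hsol ?_ ?_ b ?_ ?_ ?_ ?_
  · intro x y z
    have h := hkey (f x) (f y) (f z)
    have h2 := congrArg Subtype.val h
    rw [b_val _ _ _ x y z rfl rfl rfl, zero_val] at h2
    rw [← hβ2, h2, AL.mul_one']
  · intro v hv
    have h1 : addOrderOf v ∣ Nat.card K := addOrderOf_dvd_of_nsmul_eq_zero hv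
    have h2 : addOrderOf v ∣ Nat.card (V f) := addOrderOf_dvd_natCard v
    have h3 := Nat.dvd_gcd h1 h2
    have h4 : Nat.gcd (Nat.card K) (Nat.card (V f)) = 1 := hcop
    rw [h4, Nat.dvd_one, AddMonoid.addOrderOf_eq_one_iff] at h3
    exact h3
  · intro W hW
    have hN : Normal {m : Q | ∃ h : f m = 1, mkV f m h ∈ W} := by
      refine ⟨⟨⟨f_one f hf, W.zero_mem⟩, ?_⟩, ?_⟩
      · rintro a ⟨ha1, ha2⟩ c ⟨hc1, hc2⟩
        exact ⟨by rw [hf, ha1, hc1, one_mul], W.add_mem ha2 hc2⟩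
      · rintro x y m ⟨hm1, hm2⟩
        refine ⟨⟨T x m, ⟨f_Tm f hf hm1, ?_⟩, (T_spec x m).symm⟩, ⟨m, ⟨hm1, hm2⟩, ?_⟩,
          ⟨m, ⟨hm1, hm2⟩, kl hm1⟩⟩
        · have h := hW (f x) _ hm2
          have e : mkV f (T x m) (f_Tm f hf hm1) = f x • mkV f m hm1 :=
            Subtype.ext (smul_val (f x) (mkV f m hm1) x rfl).symm
          rw [e]; exact h
        · rw [← Rq_spec, kRq f hf hE hm1]
    rcases hirr _ hN (fun m hm => hm.1) with h | h
    · left
      rw [eq_bot_iff]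
      intro v hv
      have h2 : v.1 ∈ {m : Q | ∃ h : f m = 1, mkV f m h ∈ W} := ⟨v.2, hv⟩
      rw [h] at h2
      exact Subtype.ext h2
    · right
      rw [eq_top_iff]
      intro v _
      have h2 : v.1 ∈ {m : Q | f m = 1} := v.2
      rw [← h] at h2
      exact h2.2
  · intro x y z w
    apply Subtype.ext
    rw [add_val, b_val x y (z * w) (σ x) (σ y) (σ z * σ w) (hσ _) (hσ _) (by rw [hf, hσ, hσ]), iA,
      inv_val w _ (σ w) (hσ _), b_val x y z (σ x) (σ y) (σ z) (hσ _) (hσ _) (hσ _),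
      b_val x y w (σ x) (σ y) (σ w) (hσ _) (hσ _) (hσ _)]
  · intro x w y z
    have h : mkV f (r (σ x * σ w) (σ y) (σ z)) (hr1 _ _ _) =
        w⁻¹ • mkV f (r (σ x) (σ y) (σ z)) (hr1 _ _ _) + mkV f (r (σ w) (σ y) (σ z)) (hr1 _ _ _) := by
      apply Subtype.ext
      rw [add_val, inv_val w _ (σ w) (hσ _)]
      exact iR _ _ _ _
    rw [hr4, hr4, hr4, smul_neg, ← neg_add, neg_inj, hf, hσ, hσ, hσ, hσ] at h
    exact h
  · intro k x y z
    apply Subtype.ext
    rw [smul_val k _ (σ k) (hσ _), b_val x y z (σ x) (σ y) (σ z) (hσ _) (hσ _) (hσ _), ← iE]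
    apply b_val
    · rw [f_T f hf, hσ, hσ]
    · rw [f_T f hf, hσ, hσ]
    · rw [f_T f hf, hσ, hσ]
  · intro x y z w
    have h : (b y z w + b x (y * z) w) + w⁻¹ • b x y z = b (x * y) z w + b x y (z * w) := by
      apply Subtype.ext
      rw [add_val, add_val, add_val, inv_val w _ (σ w) (hσ _),
        b_val y z w (σ y) (σ z) (σ w) (hσ _) (hσ _) (hσ _),
        b_val x (y * z) w (σ x) (σ y * σ z) (σ w) (hσ _) (by rw [hf, hσ, hσ]) (hσ _),
        b_val x y z (σ x) (σ y) (σ z) (hσ _) (hσ _) (hσ _),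
        b_val (x * y) z w (σ x * σ y) (σ z) (σ w) (by rw [hf, hσ, hσ]) (hσ _) (hσ _),
        b_val x y (z * w) (σ x) (σ y) (σ z * σ w) (hσ _) (hσ _) (by rw [hf, hσ, hσ])]
      exact iP _ _ _ _
    have e : b y z w - b (x * y) z w + b x (y * z) w - b x y (z * w) + w⁻¹ • b x y z =
      ((b y z w + b x (y * z) w) + w⁻¹ • b x y z) - (b (x * y) z w + b x y (z * w)) := by abel
    rw [e, h, sub_self]

end

end H675HL
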