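import Pool.Agent.H675R4.HL.Stmts

/-!
Task Triv: automorphisms which are trivial on the quotient are trivial on the kernel.
-/

set_option autoImplicit false

namespace H675HL

namespace Triv

theorem ais {Q : Type} (g : Equiv.Perm Q) (x : Q) : g (g⁻¹ x) = x := g.apply_symm_apply x

variable {Q K : Type} [AL Q] [Group K]

theorem f_one (f : Q → K) (hf : Ker f) : f 1 = 1 := by
  have h := hf.1 1 1
  rw [AL.one_mul'] at h
  exact (mul_eq_left.1 h.symm)

theorem aut_one (e : Equiv.Perm Q) (he : IsAut e) : e 1 = 1 := by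
  apply (AL.bijL (e 1)).injective
  show e 1 * e 1 = e 1 * 1
  rw [← he, AL.one_mul', AL.mul_one']

/-- the automorphisms over the quotient -/
def EE (f : Q → K) : Subgroup (Equiv.Perm Q) where
  carrier := {g | IsAut g ∧ ∀ x, f (g x) = f x}
  mul_mem' := by
    rintro a b ⟨ha, ha'⟩ ⟨hb, hb'⟩
    refine ⟨fun x y => ?_, fun x => ?_⟩
    · rw [Equiv.Perm.mul_apply, Equiv.Perm.mul_apply, Equiv.Perm.mul_apply, hb, ha]
    · rw [Equiv.Perm.mul_apply, ha', hb']
  one_mem' := ⟨fun _ _ => rfl, fun _ => rfl⟩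
  inv_mem' := by
    rintro a ⟨ha, ha'⟩
    refine ⟨fun x y => ?_, fun x => ?_⟩
    · apply a.injective
      rw [ha, ais, ais, ais]
    · rw [← ha' (a⁻¹ x), ais]

theorem mem_EE (f : Q → K) (g : Equiv.Perm Q) :
    g ∈ EE f ↔ IsAut g ∧ ∀ x, f (g x) = f x := Iff.rfl

/-- the action on the kernel -/
@[reducible] def act (f : Q → K) : MulAction (EE f) {m : Q // f m = 1} where
  smul e m := ⟨e.1 m.1, by rw [e.2.2]; exact m.2⟩
  one_smul m := Subtype.ext rfl
  mul_smul a b m := Subtype.ext rfl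

end Triv

open Triv in
theorem taskTriv : TaskChar → TaskTriv := by
  intro hChar Q K _ _ _ f p n hker hp hcard hmin hq g hg hgf m hm
  haveI : Fact p.Prime := ⟨hp⟩
  -- `EE f` is a `p`-group
  have hpE : IsPGroup p (EE f) := by
    have h1 : ∀ {d : ℕ}, Nat.Prime d → d ∣ Nat.card (EE f) → d = p := by
      intro d hd hdv
      by_contra hne
      haveI : Fact d.Prime := ⟨hd⟩
      obtain ⟨e, he⟩ := exists_prime_orderOf_dvd_card' (G := EE f) d hdv
      have h2 : (e : Equiv.Perm Q) ^ d ^ 1 = 1 := by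
        have h3 : e ^ d = 1 := by rw [← he]; exact pow_orderOf_eq_one e
        rw [pow_one]
        have h4 := congrArg (fun z : EE f => (z : Equiv.Perm Q)) h3
        simpa using h4
      have h5 := hq d 1 e hd hne e.2.1 e.2.2 h2
      have h6 : e = 1 := Subtype.ext h5
      rw [h6, orderOf_one] at he
      exact hd.one_lt.ne he
    have h2 : Nat.card (EE f) ≠ 0 := Nat.card_pos.ne'
    exact IsPGroup.of_card (Nat.eq_prime_pow_of_unique_prime_dvd h2 h1)
  -- the fixed points in the kernel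
  set M' : Set Q := {m | f m = 1 ∧ ∀ e ∈ EE f, e m = m} with hM'
  have hsub : Sub M' := by
    refine ⟨⟨f_one f hker, fun e he => aut_one e he.1⟩, ?_⟩
    rintro a ⟨ha, ha'⟩ b ⟨hb, hb'⟩
    refine ⟨by rw [hker.1, ha, hb, one_mul], fun e he => ?_⟩
    rw [he.1, ha' e he, hb' e he]
  have hinv : ∀ g : Equiv.Perm Q, IsAut g → (∃ c : K, ∀ x, f (g x) = c * f x * c⁻¹) →
      ∀ m ∈ M', g m ∈ M' := by
    rintro g hg ⟨c, hc⟩ m ⟨hm, hm'⟩
    refine ⟨by rw [hc, hm]; group, fun e he => ?_⟩
    have h1 : g⁻¹ * e * g ∈ EE f := by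
      rw [mem_EE]
      refine ⟨fun x y => ?_, fun x => ?_⟩
      · apply g.injective
        rw [hg]
        simp only [Equiv.Perm.mul_apply, ais]
        rw [hg, he.1]
      · have h2 : f (g ((g⁻¹ * e * g) x)) = c * f ((g⁻¹ * e * g) x) * c⁻¹ := hc _
        have h3 : g ((g⁻¹ * e * g) x) = e (g x) := by
          simp only [Equiv.Perm.mul_apply, ais]
        rw [h3, he.2, hc] at h2
        exact (mul_left_cancel (mul_right_cancel h2)).symm
    have h2 := hm' _ h1
    have h3 : g ((g⁻¹ * e * g) m) = g m := by rw [h2]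
    simpa only [Equiv.Perm.mul_apply, ais] using h3
  have hnorm : Normal M' := hChar Q K f M' hker hsub (fun m hm => hm.1) hinv
  rcases hmin M' hnorm (fun m hm => hm.1) with h1 | h1
  · -- trivial kernel
    letI := act f
    have h2 := hpE.card_modEq_card_fixedPoints {m : Q // f m = 1}
    have h3 : Nat.card (MulAction.fixedPoints (EE f) {m : Q // f m = 1}) = 1 := by
      rw [Nat.card_eq_one_iff_unique]
      refine ⟨⟨fun a b => ?_⟩, ⟨⟨⟨1, f_one f hker⟩, fun e => Subtype.ext (aut_one e.1 e.2.1)⟩⟩⟩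
      have key : ∀ a : MulAction.fixedPoints (EE f) {m : Q // f m = 1}, (a.1.1 : Q) = 1 := by
        intro a
        have h4 : (a.1.1 : Q) ∈ M' := by
          refine ⟨a.1.2, fun e he => ?_⟩
          have h5 := a.2 ⟨e, he⟩
          exact congrArg Subtype.val h5
        rw [h1] at h4
        exact h4
      exact Subtype.ext (Subtype.ext ((key a).trans (key b).symm))
    have hcard' : Nat.card {m : Q // f m = 1} = p ^ n := hcard
    rw [h3, hcard'] at h2
    have hn : n = 0 := by
      by_contra hn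
      have h4 : p ∣ p ^ n := dvd_pow_self p hn
      have h5 : p ^ n ≡ 0 [MOD p] := (Nat.modEq_zero_iff_dvd).2 h4
      have h6 : 1 ≡ 0 [MOD p] := h2.symm.trans h5
      have h7 := (Nat.modEq_zero_iff_dvd).1 h6
      exact hp.one_lt.ne' (Nat.dvd_one.1 h7)
    rw [hn, pow_zero] at hcard'
    have h8 := (Nat.card_eq_one_iff_unique.1 hcard').1
    have h9 : (⟨m, hm⟩ : {m : Q // f m = 1}) = ⟨1, f_one f hker⟩ := Subsingleton.elim _ _
    have h10 : m = 1 := congrArg Subtype.val h9
    rw [h10]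
    exact aut_one g hg
  · have h2 : m ∈ M' := by rw [h1]; exact hm
    exact h2.2 g ⟨hg, hgf⟩

end H675HL
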