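import Pool.Agent.H675R4.HL.TaskMain
import Pool.Agent.H675R4.HL.TaskStr
import Pool.Agent.H675R4.HL.TaskAlg
import Pool.Agent.H675R4.HL.TaskBase
import Pool.Agent.H675R4.HL.TaskChar
import Pool.Agent.H675R4.HL.TaskElem
import Pool.Agent.H675R4.HL.TaskFix
import Pool.Agent.H675R4.HL.TaskQuot
import Pool.Agent.H675R4.HL.TaskR
import Pool.Agent.H675R4.HL.TaskSZ
import Pool.Agent.H675R4.HL.TaskTriv
import Pool.Agent.H99R3.HL.TaskSub

set_option autoImplicit false

namespace H675HL

theorem hall (Q : Type) [AL Q] [Finite Q] (h : Good Q) (P : Set ℕ) : Hall Q P :=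
  taskMain H99.taskSub taskQuot taskChar (taskElem taskChar) (taskR taskChar) taskFix
      (taskTriv taskChar) (taskStr taskAlg) taskSZ taskBase Q h P

theorem sylow (Q : Type) [AL Q] [Finite Q] {K : Type} [Group K] (f : Q → K) (h : Ker f) (p : ℕ)
    (hp : p.Prime) : ∃ H : Set Q, Sub H ∧ Nat.card H = p ^ (Nat.card Q).factorization p := by
  classical
  haveI : Fact p.Prime := ⟨hp⟩
  have hfin : Finite (baseRange h) := Finite.of_surjective _ (baseF_surj h)
  obtain ⟨P⟩ : Nonempty (Sylow p (baseRange h)) := inferInstance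
  have hg1 : baseF h 1 = 1 := (baseF_eq_one h 1).2 (base_map_one h)
  have hS : Sub {x : Q | baseF h x ∈ P} := by
    refine ⟨?_, ?_⟩
    · change baseF h 1 ∈ P
      rw [hg1]
      exact one_mem (P : Subgroup (baseRange h))
    · intro a ha b hb
      change baseF h (a * b) ∈ P
      rw [baseF_mul]
      exact mul_mem (S := Subgroup (baseRange h)) ha hb
  letI : AL {x : Q | baseF h x ∈ P} := H99.subAL _ hS
  let g : {x : Q | baseF h x ∈ P} → (P : Subgroup (baseRange h)) := fun x => ⟨baseF h x.1, x.2⟩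
  have hg : ∀ x, g x = 1 ↔ f x.1 = 1 := by
    intro x
    rw [← baseF_eq_one h]
    constructor
    · intro h1; exact congrArg Subtype.val h1
    · intro h1; exact Subtype.ext h1
  have hkg : Ker g := by
    refine ⟨?_, ?_, ?_⟩
    · intro x y
      exact Subtype.ext (baseF_mul h x.1 y.1)
    · intro x y hx hy
      rw [hg] at hx hy
      exact Subtype.ext (h.2.1 x.1 y.1 hx hy)
    · intro x y z hx hy hz
      rw [hg] at hx hy hz
      exact Subtype.ext (h.2.2 x.1 y.1 z.1 hx hy hz)
  have hgs : Function.Surjective g := by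
    rintro ⟨y, hy⟩
    obtain ⟨x, rfl⟩ := baseF_surj h y
    exact ⟨⟨x, hy⟩, rfl⟩
  have hPg : IsPGroup p (P : Subgroup (baseRange h)) := P.isPGroup'
  haveI : Group.IsNilpotent (P : Subgroup (baseRange h)) := hPg.isNilpotent
  have hsol : Group.IsSolvable (P : Subgroup (baseRange h)) := inferInstance
  obtain ⟨H, -, hH, k, hk, hp1, hp2⟩ := hall {x : Q | baseF h x ∈ P} ⟨_, _, g, hsol, hkg⟩ {p}
  have hkb : Ker (baseF h) := by
    refine ⟨baseF_mul h, ?_, ?_⟩
    · intro x y hx hy
      rw [baseF_eq_one] at hx hy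
      exact h.2.1 x y hx hy
    · intro x y z hx hy hz
      rw [baseF_eq_one] at hx hy hz
      exact h.2.2 x y z hx hy hz
  have c1 := base_card hkg hgs
  have c2 := base_card hkb (baseF_surj h)
  have c3 : Nat.card {m | g m = 1} = Nat.card {m : Q | baseF h m = 1} := by
    apply Nat.card_congr
    refine ⟨fun m => ⟨m.1.1, congrArg Subtype.val m.2⟩, fun m => ⟨⟨m.1, ?_⟩, ?_⟩, ?_, ?_⟩
    · change baseF h m.1 ∈ P
      have e : baseF h m.1 = 1 := m.2
      rw [e]; exact one_mem (P : Subgroup (baseRange h))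
    · exact Subtype.ext m.2
    · intro m; rfl
    · intro m; rfl
  have c4 : Nat.card (P : Subgroup (baseRange h)) * (P : Subgroup (baseRange h)).index =
    Nat.card (baseRange h) := Subgroup.card_mul_index _
  have c5 : Nat.card (Set.univ : Set {x : Q | baseF h x ∈ P}) = Nat.card {x : Q | baseF h x ∈ P} :=
    Nat.card_congr (Equiv.Set.univ _)
  have cQ : Nat.card Q = Nat.card H * (k * (P : Subgroup (baseRange h)).index) := by
    rw [c2, ← c4, ← c3, ← mul_assoc, hk, c5, c1]; ring
  have hpos : Nat.card Q ≠ 0 := by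
    haveI : Nonempty Q := ⟨1⟩
    exact Nat.card_pos.ne'
  have hH0 : Nat.card H ≠ 0 := by
    intro h0; rw [h0, zero_mul] at cQ; exact hpos cQ
  have hk0 : k * (P : Subgroup (baseRange h)).index ≠ 0 := by
    intro h0; rw [h0, mul_zero] at cQ; exact hpos cQ
  have hpow := Nat.eq_prime_pow_of_unique_prime_dvd hH0 (p := p) (fun {d} hd hdv => hp1 d hd hdv)
  have hnd : ¬ p ∣ k * (P : Subgroup (baseRange h)).index := by
    intro hd
    rcases hp.dvd_mul.1 hd with h1 | h1
    · exact hp2 p hp h1 rfl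
    · exact P.not_dvd_index h1
  refine ⟨Subtype.val '' H, ⟨⟨1, hH.1, rfl⟩, ?_⟩, ?_⟩
  · rintro _ ⟨x, hx, rfl⟩ _ ⟨y, hy, rfl⟩
    exact ⟨x * y, hH.2 x hx y hy, rfl⟩
  · rw [Nat.card_image_of_injective Subtype.val_injective H, cQ,
      Nat.factorization_mul hH0 hk0, Finsupp.add_apply,
      Nat.factorization_eq_zero_of_not_dvd hnd, add_zero]
    rw [hpow, Nat.factorization_pow, Finsupp.smul_apply, hp.factorization_self]
    simp

end H675HL
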