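import Mathlib

/-!
Statements for: Hall subloops of finite automorphic loops which are extensions of an abelian group
by a solvable group.
-/

set_option autoImplicit false

namespace H675HL

/-- automorphic loops, in raw form -/
class AL (Q : Type) extends Mul Q, One Q where
  one_mul' : ∀ a : Q, 1 * a = a
  mul_one' : ∀ a : Q, a * 1 = a
  bijL : ∀ a : Q, Function.Bijective (fun x : Q => a * x)
  bijR : ∀ a : Q, Function.Bijective (fun x : Q => x * a)
  autL : ∀ x y u v a b : Q, (x * y) * a = x * (y * u) → (x * y) * b = x * (y * v) →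
    (x * y) * (a * b) = x * (y * (u * v))
  autR : ∀ x y u v a b : Q, a * (y * x) = (u * y) * x → b * (y * x) = (v * y) * x →
    (a * b) * (y * x) = ((u * v) * y) * x
  autT : ∀ x u v a b : Q, a * x = x * u → b * x = x * v → (a * b) * x = x * (u * v)

/-- `f` is a homomorphism to a group whose kernel is an abelian group. -/
def Ker {Q : Type} [AL Q] {K : Type} [Group K] (f : Q → K) : Prop :=
  (∀ x y, f (x * y) = f x * f y) ∧
  (∀ x y, f x = 1 → f y = 1 → x * y = y * x) ∧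
  (∀ x y z, f x = 1 → f y = 1 → f z = 1 → (x * y) * z = x * (y * z))

/-- `Q` is an extension of an abelian group by a solvable group. -/
def Good (Q : Type) [AL Q] : Prop :=
  ∃ (K : Type) (_ : Group K) (f : Q → K), Group.IsSolvable K ∧ Ker f

/-- subloops (of finite loops) -/
def Sub {Q : Type} [AL Q] (H : Set Q) : Prop := 1 ∈ H ∧ ∀ a ∈ H, ∀ b ∈ H, a * b ∈ H

/-- `S` contains a Hall subloop of `S` for `P` -/
def HallIn {Q : Type} [AL Q] (S : Set Q) (P : Set ℕ) : Prop :=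
  ∃ H : Set Q, H ⊆ S ∧ Sub H ∧ ∃ k : ℕ, Nat.card H * k = Nat.card S ∧
    (∀ p : ℕ, p.Prime → p ∣ Nat.card H → p ∈ P) ∧ (∀ p : ℕ, p.Prime → p ∣ k → p ∉ P)

/-- `Q` has a Hall subloop for `P` -/
def Hall (Q : Type) [AL Q] (P : Set ℕ) : Prop := HallIn (Set.univ : Set Q) P

/-- normal subloops -/
def Normal {Q : Type} [AL Q] (M : Set Q) : Prop :=
  Sub M ∧ ∀ x y : Q, ∀ m ∈ M, (∃ m' ∈ M, x * m = m' * x) ∧
    (∃ m' ∈ M, (m * x) * y = m' * (x * y)) ∧ (∃ m' ∈ M, y * (x * m) = (y * x) * m')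

/-- induction hypothesis -/
def IH (n : ℕ) (P : Set ℕ) : Prop :=
  ∀ (Q : Type) [AL Q] [Finite Q], Nat.card Q < n → Good Q → Hall Q P

/-- automorphisms of `Q` -/
def IsAut {Q : Type} [AL Q] (g : Equiv.Perm Q) : Prop := ∀ x y, g (x * y) = g x * g y

/-- Pure algebra. -/
def TaskAlg : Prop :=
  ∀ (K V : Type) [Group K] [Finite K] [AddCommGroup V] [Finite V] [DistribMulAction K V],
    Group.IsSolvable K → (∀ v : V, Nat.card K • v = 0 → v = 0) →
    (∀ W : AddSubgroup V, (∀ k : K, ∀ w ∈ W, k • w ∈ W) → W = ⊥ ∨ W = ⊤) →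
    ∀ b : K → K → K → V,
    (∀ x y z w, b x y (z * w) = w⁻¹ • b x y z + b x y w) →
    (∀ x w y z, (y * z) • b (x * w) y z = w⁻¹ • ((y * z) • b x y z) + (y * z) • b w y z) →
    (∀ k x y z, b (k * x * k⁻¹) (k * y * k⁻¹) (k * z * k⁻¹) = k • b x y z) →
    (∀ x y z w, b y z w - b (x * y) z w + b x (y * z) w - b x y (z * w) + w⁻¹ • b x y z = 0) →
    ∀ x y z, b x y z = 0

/-- A proper subloop of a good loop has Hall subloops, by induction. -/
def TaskSub : Prop :=
  ∀ (Q : Type) [AL Q] [Finite Q] (S : Set Q) (P : Set ℕ), Good Q → Sub S → S ≠ Set.univ →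
    IH (Nat.card Q) P → HallIn S P

/-- The preimage of a Hall subloop of the quotient `Q/M`. -/
def TaskQuot : Prop :=
  ∀ (Q K : Type) [AL Q] [Finite Q] [Group K] (f : Q → K) (M : Set Q) (P : Set ℕ),
    Group.IsSolvable K → Ker f → Normal M → M ≠ {1} → (∀ m ∈ M, f m = 1) → IH (Nat.card Q) P →
    ∃ S : Set Q, Sub S ∧ M ⊆ S ∧ ∃ j k : ℕ, Nat.card S = Nat.card M * j ∧
      Nat.card S * k = Nat.card Q ∧ (∀ p : ℕ, p.Prime → p ∣ j → p ∈ P) ∧
      (∀ p : ℕ, p.Prime → p ∣ k → p ∉ P)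

/-- Sets in the kernel which are invariant under automorphisms are normal. The automorphisms which
are used are the three types of inner mappings. -/
def TaskChar : Prop :=
  ∀ (Q K : Type) [AL Q] [Finite Q] [Group K] (f : Q → K) (M : Set Q),
    Ker f → Sub M → (∀ m ∈ M, f m = 1) →
    (∀ g : Equiv.Perm Q, IsAut g → (∃ c : K, ∀ x, f (g x) = c * f x * c⁻¹) →
      ∀ m ∈ M, g m ∈ M) → Normal M

/-- Minimal normal subloops in the kernel are `p`-groups. -/
def TaskElem : Prop :=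
  ∀ (Q K : Type) [AL Q] [Finite Q] [Group K] (f : Q → K) (M : Set Q),
    Ker f → Normal M → M ≠ {1} → (∀ m ∈ M, f m = 1) →
    (∀ M' : Set Q, Normal M' → M' ⊆ M → M' = {1} ∨ M' = M) →
    ∃ p n : ℕ, p.Prime ∧ n ≠ 0 ∧ Nat.card M = p ^ n

/-- The `p'`-part of the kernel. -/
def TaskR : Prop :=
  ∀ (Q K : Type) [AL Q] [Finite Q] [Group K] (f : Q → K) (p : ℕ),
    Ker f → p.Prime → ∃ (R : Set Q) (n : ℕ), Normal R ∧ (∀ m ∈ R, f m = 1) ∧ ¬ p ∣ Nat.card R ∧
      Nat.card {m : Q | f m = 1} = p ^ n * Nat.card R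

/-- Automorphisms of order prime to `p` which are trivial on the quotient have fixed points in all
fibres; hence the fixed points form a subloop of index a power of `p`. -/
def TaskFix : Prop :=
  ∀ (Q K : Type) [AL Q] [Finite Q] [Group K] (f : Q → K) (p q n k : ℕ), Ker f → p.Prime →
    q.Prime → q ≠ p → Nat.card {m : Q | f m = 1} = p ^ n →
    ∀ g : Equiv.Perm Q, IsAut g → (∀ x, f (g x) = f x) → g ^ q ^ k = 1 →
    Sub {y : Q | g y = y} ∧ ∃ j : ℕ, Nat.card {y : Q | g y = y} * p ^ j = Nat.card Q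

/-- Automorphisms which are trivial on the quotient are trivial on the kernel. -/
def TaskTriv : Prop :=
  ∀ (Q K : Type) [AL Q] [Finite Q] [Group K] (f : Q → K) (p n : ℕ), Ker f → p.Prime →
    Nat.card {m : Q | f m = 1} = p ^ n →
    (∀ M' : Set Q, Normal M' → (∀ m ∈ M', f m = 1) → M' = {1} ∨ M' = {m : Q | f m = 1}) →
    (∀ (q k : ℕ) (g : Equiv.Perm Q), q.Prime → q ≠ p → IsAut g → (∀ x, f (g x) = f x) →
      g ^ q ^ k = 1 → g = 1) →
    ∀ g : Equiv.Perm Q, IsAut g → (∀ x, f (g x) = f x) → ∀ m, f m = 1 → g m = m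

/-- The irreducible case: the loop is a group. -/
def TaskStr : Prop :=
  ∀ (Q K : Type) [AL Q] [Finite Q] [Group K] [Finite K] (f : Q → K), Group.IsSolvable K →
    Function.Surjective f → Ker f → (Nat.card K).Coprime (Nat.card {m : Q | f m = 1}) →
    (∀ M' : Set Q, Normal M' → (∀ m ∈ M', f m = 1) → M' = {1} ∨ M' = {m : Q | f m = 1}) →
    (∀ g : Equiv.Perm Q, IsAut g → (∀ x, f (g x) = f x) → ∀ m, f m = 1 → g m = m) →
    ∀ x y z : Q, (x * y) * z = x * (y * z)

/-- Schur-Zassenhaus. -/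
def TaskSZ : Prop :=
  ∀ (Q K : Type) [AL Q] [Finite Q] [Group K] [Finite K] (f : Q → K),
    Function.Surjective f → Ker f → (Nat.card K).Coprime (Nat.card {m : Q | f m = 1}) →
    (∀ x y z : Q, (x * y) * z = x * (y * z)) → ∃ S : Set Q, Sub S ∧ Nat.card S = Nat.card K

/-- Passing to a surjective homomorphism with nontrivial kernel. -/
def TaskBase : Prop :=
  ∀ (Q : Type) [AL Q] [Finite Q], Good Q → (∃ x : Q, x ≠ 1) →
    ∃ (K : Type) (_ : Group K) (_ : Finite K) (f : Q → K), Group.IsSolvable K ∧ Ker f ∧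
      Function.Surjective f ∧ (∃ m : Q, m ≠ 1 ∧ f m = 1) ∧
      Nat.card Q = Nat.card K * Nat.card {m : Q | f m = 1}

/-- Assembly of the induction. -/
def TaskMain : Prop :=
  TaskSub → TaskQuot → TaskChar → TaskElem → TaskR → TaskFix → TaskTriv → TaskStr → TaskSZ →
  TaskBase → ∀ (Q : Type) [AL Q] [Finite Q], Good Q → ∀ P : Set ℕ, Hall Q P

end H675HL
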