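import Pool.Agent.H675R4.HL.Stmts

/-!
`TaskAlg` (by helper361): averaging, no use of solvability.
-/

set_option autoImplicit false

namespace H675HL

theorem smul_nsmul_comm' {K V : Type} [Group K] [AddCommGroup V] [DistribMulAction K V] (k : K)
    (v : V) (n : ℕ) : n • (k • v) = k • (n • v) := by
  induction n with
  | zero => simp
  | succ n ih => rw [succ_nsmul, succ_nsmul, smul_add, ih]

theorem taskAlg2 : TaskAlg := by
  intro K V _ _ _ _ _ _ hn hirr b h1 h2 h3 h4
  classical
  haveI : Fintype K := Fintype.ofFinite K
  set n := Nat.card K with hnd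
  have hnc : ∀ v : V, (∑ _z : K, v) = n • v := by
    intro v
    rw [Finset.sum_const, Finset.card_univ, hnd, Nat.card_eq_fintype_card]
  set B : K → K → V := fun x y => ∑ z, b x y z with hB
  have e1 : ∀ x y w, n • b x y w = B x y - w⁻¹ • B x y := by
    intro x y w
    have h : ∑ z, b x y (z * w) = B x y :=
      Fintype.sum_equiv (Equiv.mulRight w) _ _ (fun z => rfl)
    have h' : ∑ z, b x y (z * w) = w⁻¹ • B x y + n • b x y w := by
      rw [← hnc (b x y w), hB]
      simp only
      rw [Finset.smul_sum, ← Finset.sum_add_distrib]
      exact Finset.sum_congr rfl (fun z _ => h1 x y z w)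
    rw [h] at h'
    rw [eq_sub_iff_add_eq, add_comm]; exact h'.symm
  -- trivial action
  by_cases htriv : ∀ (k : K) (v : V), k • v = v
  · intro x y z
    apply hn
    rw [e1, htriv, sub_self]
  have hinv : ∀ v : V, (∀ k : K, k • v = v) → v = 0 := by
    intro v hv
    let F : AddSubgroup V :=
      { carrier := {v | ∀ k : K, k • v = v}
        zero_mem' := fun k => smul_zero k
        add_mem' := fun {a b} ha hb k => by rw [smul_add, ha k, hb k]
        neg_mem' := fun {a} ha k => by rw [smul_neg, ha k] }
    rcases hirr F (by
      intro k w hw k'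
      have hw' : ∀ k : K, k • w = w := hw
      rw [hw' k, hw' k']) with h | h
    · have : v ∈ F := hv
      rw [h] at this
      exact (AddSubgroup.mem_bot).1 this
    · exfalso
      apply htriv
      intro k u
      have : u ∈ F := by rw [h]; trivial
      exact this k
  have hsum : ∀ v : V, ∑ w : K, w⁻¹ • v = 0 := by
    intro v
    apply hinv
    intro k
    rw [Finset.smul_sum]
    apply Fintype.sum_equiv (Equiv.mulRight k⁻¹)
    intro w
    simp [mul_smul]
  have e3 : ∀ k x y, B (k * x * k⁻¹) (k * y * k⁻¹) = k • B x y := by
    intro k x y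
    rw [hB]
    simp only
    rw [Finset.smul_sum]
    symm
    apply Fintype.sum_equiv (MulAut.conj k).toEquiv
    intro z
    exact (h3 k x y z).symm
  have e4 : ∀ x y z, B y z - B (x * y) z + B x (y * z) - B x y = 0 := by
    intro x y z
    have h : ∑ w, (b y z w - b (x * y) z w + b x (y * z) w - b x y (z * w) + w⁻¹ • b x y z) = 0 :=
      Finset.sum_eq_zero (fun w _ => h4 x y z w)
    rw [Finset.sum_add_distrib, Finset.sum_sub_distrib, Finset.sum_add_distrib,
      Finset.sum_sub_distrib, hsum, add_zero] at h
    have h' : ∑ w, b x y (z * w) = B x y :=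
      Fintype.sum_equiv (Equiv.mulLeft z) _ _ (fun w => rfl)
    rw [h'] at h
    exact h
  set T : K → V := fun x => ∑ z, B x z with hT
  have e5 : ∀ x y, n • B x y = T x + T y - T (x * y) := by
    intro x y
    have h : ∑ z, (B y z - B (x * y) z + B x (y * z) - B x y) = 0 :=
      Finset.sum_eq_zero (fun z _ => e4 x y z)
    rw [Finset.sum_sub_distrib, Finset.sum_add_distrib, Finset.sum_sub_distrib, hnc] at h
    have h' : ∑ z, B x (y * z) = T x :=
      Fintype.sum_equiv (Equiv.mulLeft y) _ _ (fun w => rfl)
    rw [h'] at h
    have h2 : n • B x y = T y - T (x * y) + T x := (sub_eq_zero.1 h).symm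
    rw [h2]; abel
  have e6 : ∀ k x, T (k * x * k⁻¹) = k • T x := by
    intro k x
    rw [hT]
    simp only
    rw [Finset.smul_sum]
    symm
    apply Fintype.sum_equiv (MulAut.conj k).toEquiv
    intro z
    exact (e3 k x z).symm
  have e7 : ∀ x, x • T x = T x := by
    intro x
    rw [← e6, mul_inv_cancel_right]
  -- elements with fixed vectors
  have e8 : ∀ x, (∃ v : V, v ≠ 0 ∧ x • v = v) → ∀ y, B x y = 0 := by
    rintro x ⟨v, hv0, hv⟩ y
    let φ : V →+ V :=
      { toFun := fun u => u - x⁻¹ • u
        map_zero' := by simp
        map_add' := fun a b => by rw [smul_add]; abel }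
    have hφ : φ.range ≠ ⊤ := by
      intro htop
      have hs : Function.Surjective φ := AddMonoidHom.range_eq_top.1 htop
      have hi := Finite.injective_iff_surjective.2 hs
      apply hv0
      apply hi
      have : x⁻¹ • v = v := by rw [inv_smul_eq_iff, hv]
      change v - x⁻¹ • v = (0 : V) - x⁻¹ • (0 : V)
      rw [this]; simp
    let C : AddSubgroup V :=
      { carrier := {u | ∀ k : K, y • k • u ∈ φ.range}
        zero_mem' := fun k => by rw [smul_zero, smul_zero]; exact zero_mem _
        add_mem' := fun {a b} ha hb k => by
          rw [smul_add, smul_add]; exact add_mem (ha k) (hb k)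
        neg_mem' := fun {a} ha k => by
          rw [smul_neg, smul_neg]; exact neg_mem (ha k) }
    have hC : C = ⊥ := by
      rcases hirr C (by
        intro k w hw k'
        have hw' : ∀ k : K, y • k • w ∈ φ.range := hw
        rw [smul_smul k' k w]; exact hw' (k' * k)) with h | h
      · exact h
      · exfalso
        apply hφ
        rw [eq_top_iff]
        intro u _
        have : y⁻¹ • u ∈ C := by rw [h]; trivial
        have h2 : y • (1 : K) • y⁻¹ • u ∈ φ.range := this 1
        rwa [one_smul, smul_inv_smul] at h2
    -- the key membership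
    have hG : ∀ z : K, y • (z • B x y - B x y) ∈ φ.range := by
      intro z
      set G : V := ∑ w, (y * z) • b w y z with hGd
      have g1 : n • ((y * z) • b x y z) = G - x⁻¹ • G := by
        have h : ∑ w, (y * z) • b (w * x) y z = G :=
          Fintype.sum_equiv (Equiv.mulRight x) _ _ (fun w => rfl)
        have h' : ∑ w, (y * z) • b (w * x) y z = x⁻¹ • G + n • ((y * z) • b x y z) := by
          rw [← hnc ((y * z) • b x y z), hGd, Finset.smul_sum, ← Finset.sum_add_distrib]
          exact Finset.sum_congr rfl (fun w _ => h2 w x y z)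
        rw [h] at h'
        rw [eq_sub_iff_add_eq, add_comm]; exact h'.symm
      have g2 : y • (z • B x y - B x y) = n • ((y * z) • b x y z) := by
        have h9 : n • ((y * z) • b x y z) = (y * z) • (n • b x y z) :=
          (smul_nsmul_comm' (y * z) (b x y z) n)
        rw [h9, e1, mul_smul, smul_sub z, smul_inv_smul]
      rw [g2, g1]
      exact ⟨G, rfl⟩
    apply hinv
    intro z
    have hmem : z • B x y - B x y ∈ C := by
      intro k
      have : y • k • (z • B x y - B x y) =
          y • ((k * z) • B x y - B x y) - y • (k • B x y - B x y) := by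
        rw [mul_smul, ← smul_sub]
        congr 1
        rw [smul_sub]; abel
      rw [this]
      exact sub_mem (hG _) (hG _)
    rw [hC, AddSubgroup.mem_bot, sub_eq_zero] at hmem
    exact hmem
  have e9 : ∀ x, T x = 0 := by
    intro x
    by_contra hTx
    -- then `x` has a fixed vector
    have hfix : ∃ v : V, v ≠ 0 ∧ x • v = v := ⟨T x, hTx, e7 x⟩
    have h10 : ∀ y, T (x * y) = T x + T y := by
      intro y
      have := e5 x y
      rw [e8 x hfix y, smul_zero] at this
      exact (sub_eq_zero.1 this.symm).symm
    have h11 : T 1 = 0 := by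
      have h := e5 1 1
      rw [e8 1 ⟨T x, hTx, one_smul _ _⟩ 1, smul_zero, mul_one, add_sub_cancel_right] at h
      exact h.symm
    have h12 : ∀ k : ℕ, T (x ^ k) = k • T x := by
      intro k
      induction k with
      | zero => rw [pow_zero, h11, zero_smul]
      | succ k ih => rw [pow_succ', h10, ih, succ_nsmul']
    have h13 := h12 n
    rw [hnd, pow_card_eq_one', h11] at h13
    exact hTx (hn _ h13.symm)
  intro x y z
  apply hn
  have hBz : B x y = 0 := by
    apply hn
    rw [e5, e9, e9, e9]; simp
  rw [e1, hBz]; simp

end H675HL
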