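import Pool.Agent.H675R4.HL.Stmts

/-!
Assembly of the induction (helper489).
-/

set_option autoImplicit false

namespace H675HL

theorem main_lemma {Q : Type} [AL Q] [Finite Q] (hSub : TaskSub) (hG : Good Q) (P : Set ℕ)
    (hIH : IH (Nat.card Q) P) (S : Set Q) (hS : Sub S) (hSu : S ≠ Set.univ) (k : ℕ)
    (hk : Nat.card S * k = Nat.card Q) (hkP : ∀ p : ℕ, p.Prime → p ∣ k → p ∉ P) : Hall Q P := by
  obtain ⟨H, hHS, hH, k', h1, h2, h3⟩ := hSub Q S P hG hS hSu hIH
  refine ⟨H, Set.subset_univ _, hH, k' * k, ?_, h2, ?_⟩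
  · rw [← mul_assoc, h1, hk, Nat.card_univ]
  · intro p hp hd
    rcases (Nat.Prime.dvd_mul hp).1 hd with h | h
    · exact h3 p hp h
    · exact hkP p hp h

theorem taskMain : TaskMain := by
  intro hSub hQuot hChar hElem hR hFix hTriv hStr hSZ hBase
  suffices h : ∀ n : ℕ, ∀ (Q : Type) [AL Q] [Finite Q], Nat.card Q = n → Good Q →
      ∀ P : Set ℕ, Hall Q P from fun Q _ _ hG P => h (Nat.card Q) Q rfl hG P
  intro n
  induction n using Nat.strong_induction_on with
  | _ n ih =>
    intro Q _ _ hn hG P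
    have hIH : IH (Nat.card Q) P := by
      intro Q' _ _ hlt hG'
      exact ih (Nat.card Q') (hn ▸ hlt) Q' rfl hG' P
    by_cases hne : ∃ x : Q, x ≠ 1
    swap
    · -- the trivial loop
      have hall : ∀ x : Q, x = 1 := by
        intro x
        by_contra hx
        exact hne ⟨x, hx⟩
      have hc1 : Nat.card Q = 1 := by
        rw [Nat.card_eq_one_iff_unique]
        exact ⟨⟨fun a b => (hall a).trans (hall b).symm⟩, ⟨1⟩⟩
      refine ⟨Set.univ, subset_rfl, ⟨trivial, fun _ _ _ _ => trivial⟩, 1, by rw [mul_one], ?_, ?_⟩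
      · intro p hp hd
        rw [Nat.card_univ, hc1] at hd
        exact absurd (Nat.dvd_one.1 hd) hp.one_lt.ne'
      · intro p hp hd
        exact absurd (Nat.dvd_one.1 hd) hp.one_lt.ne'
    obtain ⟨K, _, _, f, hsolv, hker, hsurj, ⟨m0, hm0, hfm0⟩, hcard⟩ := hBase Q hG hne
    have L := main_lemma hSub hG P hIH
    -- the kernel
    set N : Set Q := {m : Q | f m = 1} with hN
    have hf1 : f 1 = 1 := by
      have h := hker.1 1 1
      rw [AL.one_mul'] at h
      exact left_eq_mul.1 h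
    have hNsub : Sub N := by
      refine ⟨hf1, ?_⟩
      intro a ha b hb
      show f (a * b) = 1
      rw [hker.1, show f a = 1 from ha, show f b = 1 from hb, mul_one]
    have hNnormal : Normal N := by
      refine hChar Q K f N hker hNsub (fun m hm => hm) ?_
      rintro g - ⟨c, hc⟩ m hm
      show f (g m) = 1
      rw [hc, show f m = 1 from hm]
      simp
    have hNne : N ≠ {1} := by
      intro h
      have : m0 ∈ N := hfm0
      rw [h] at this
      exact hm0 this
    -- a minimal normal subloop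
    obtain ⟨M, ⟨hMn, hM1, hMf⟩, hMmin⟩ : ∃ M : Set Q, (Normal M ∧ M ≠ {1} ∧ ∀ m ∈ M, f m = 1) ∧
        ∀ M' : Set Q, (Normal M' ∧ M' ≠ {1} ∧ ∀ m ∈ M', f m = 1) → Nat.card M ≤ Nat.card M' := by
      classical
      have hex : ∃ c : ℕ, ∃ M : Set Q, (Normal M ∧ M ≠ {1} ∧ ∀ m ∈ M, f m = 1) ∧ Nat.card M = c :=
        ⟨_, N, ⟨hNnormal, hNne, fun m hm => hm⟩, rfl⟩
      obtain ⟨M, hM, hMc⟩ := Nat.find_spec hex
      refine ⟨M, hM, fun M' hM' => ?_⟩
      rw [hMc]
      exact Nat.find_min' hex ⟨M', hM', rfl⟩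
    have hMmin' : ∀ M' : Set Q, Normal M' → M' ⊆ M → M' = {1} ∨ M' = M := by
      intro M' hM' hsub
      by_cases h1 : M' = {1}
      · exact Or.inl h1
      · right
        have hle := hMmin M' ⟨hM', h1, fun m hm => hMf m (hsub hm)⟩
        rw [Nat.card_coe_set_eq, Nat.card_coe_set_eq] at hle
        exact Set.eq_of_subset_of_ncard_le hsub hle (Set.toFinite _)
    obtain ⟨p, e, hp, he, hMc⟩ := hElem Q K f M hker hMn hM1 hMf hMmin'
    obtain ⟨S, hS, hMS, j, k, hSc, hSk, hjP, hkP⟩ := hQuot Q K f M P hsolv hker hMn hM1 hMf hIH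
    by_cases hpP : p ∈ P
    · refine ⟨S, Set.subset_univ _, hS, k, by rw [hSk, Nat.card_univ], ?_, hkP⟩
      intro q hq hd
      rw [hSc, hMc] at hd
      rcases (Nat.Prime.dvd_mul hq).1 hd with h | h
      · rw [(Nat.prime_dvd_prime_iff_eq hq hp).1 (hq.dvd_of_dvd_pow h)]
        exact hpP
      · exact hjP q hq h
    by_cases hSu : S = Set.univ
    swap
    · exact L S hS hSu k hSk hkP
    have hQc : Nat.card Q = p ^ e * j := by
      rw [← hMc, ← hSc, hSu, Nat.card_univ]
    have hpj : ¬ p ∣ j := fun h => hpP (hjP p hp h)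
    obtain ⟨R, e', hRn, hRf, hRp, hRc⟩ := hR Q K f p hker hp
    by_cases hR1 : R = {1}
    swap
    · obtain ⟨S', hS', -, j', k', hSc', hSk', hjP', hkP'⟩ := hQuot Q K f R P hsolv hker hRn hR1 hRf hIH
      refine ⟨S', Set.subset_univ _, hS', k', by rw [hSk', Nat.card_univ], ?_, hkP'⟩
      intro q hq hd
      rw [hSc'] at hd
      rcases (Nat.Prime.dvd_mul hq).1 hd with h | h
      · have hdQ : q ∣ p ^ e * j := by
          rw [← hQc, hcard, hRc]
          exact Dvd.dvd.mul_left (Dvd.dvd.mul_left h _) _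
        rcases (Nat.Prime.dvd_mul hq).1 hdQ with h2 | h2
        · exfalso
          rw [(Nat.prime_dvd_prime_iff_eq hq hp).1 (hq.dvd_of_dvd_pow h2)] at h
          exact hRp h
        · exact hjP q hq h2
      · exact hjP' q hq h
    -- `R` trivial
    have hNc : Nat.card N = p ^ e' := by
      rw [hRc, hR1]
      simp
    have hMN : M ⊆ N := fun m hm => hMf m hm
    have hle : e ≤ e' := by
      have h1 : Nat.card M ≤ Nat.card N := by
        rw [Nat.card_coe_set_eq, Nat.card_coe_set_eq]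
        exact Set.ncard_le_ncard hMN (Set.toFinite _)
      rw [hMc, hNc] at h1
      exact (Nat.pow_le_pow_iff_right hp.one_lt).1 h1
    have hpe : 0 < p ^ e := Nat.pow_pos hp.pos
    have hee : e' = e := by
      rcases Nat.eq_or_lt_of_le hle with h | h
      · exact h.symm
      · exfalso
        obtain ⟨d, rfl⟩ := Nat.exists_eq_add_of_lt h
        rw [hQc, hNc] at hcard
        have h2 : p ^ e * j = p ^ e * (Nat.card K * p ^ (d + 1)) := by
          rw [hcard, show e + d + 1 = e + (d + 1) by ring, pow_add]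
          ring
        have h3 : j = Nat.card K * p ^ (d + 1) := Nat.eq_of_mul_eq_mul_left hpe h2
        apply hpj
        rw [h3, pow_succ]
        exact Dvd.dvd.mul_left (Dvd.dvd.mul_left (dvd_refl p) _) _
    rw [hee] at hNc
    have hNM : M = N := by
      apply Set.eq_of_subset_of_ncard_le hMN _ (Set.toFinite _)
      rw [← Nat.card_coe_set_eq, ← Nat.card_coe_set_eq, hNc, hMc]
    have hKj : Nat.card K = j := by
      rw [hQc, hNc, mul_comm (Nat.card K)] at hcard
      exact (Nat.eq_of_mul_eq_mul_left hpe hcard).symm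
    have hcop : (Nat.card K).Coprime (Nat.card N) := by
      rw [hKj, hNc]
      exact ((Nat.Prime.coprime_iff_not_dvd hp).2 hpj).symm.pow_right e
    have hmin : ∀ M' : Set Q, Normal M' → (∀ m ∈ M', f m = 1) → M' = {1} ∨ M' = N := by
      intro M' h1 h2
      rw [← hNM]
      exact hMmin' M' h1 (by rw [hNM]; exact h2)
    by_cases hg : ∃ (q k : ℕ) (g : Equiv.Perm Q), q.Prime ∧ q ≠ p ∧ IsAut g ∧
        (∀ x, f (g x) = f x) ∧ g ^ q ^ k = 1 ∧ g ≠ 1
    · obtain ⟨q, k1, g, hq, hqp, hga, hgf, hgk, hg1⟩ := hg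
      obtain ⟨hF, j1, hj1⟩ := hFix Q K f p q e k1 hker hp hq hqp hNc g hga hgf hgk
      refine L _ hF ?_ (p ^ j1) hj1 ?_
      · intro hu
        apply hg1
        ext y
        have : y ∈ {y : Q | g y = y} := by rw [hu]; trivial
        exact this
      · intro r hr hd
        rw [(Nat.prime_dvd_prime_iff_eq hr hp).1 (hr.dvd_of_dvd_pow hd)]
        exact hpP
    · have htriv := hTriv Q K f p e hker hp hNc hmin (by
        intro q k1 g hq hqp hga hgf hgk
        by_contra hg1
        exact hg ⟨q, k1, g, hq, hqp, hga, hgf, hgk, hg1⟩)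
      have hassoc := hStr Q K f hsolv hsurj hker hcop hmin htriv
      obtain ⟨T, hT, hTc⟩ := hSZ Q K f hsurj hker hcop hassoc
      refine ⟨T, Set.subset_univ _, hT, p ^ e, ?_, ?_, ?_⟩
      · rw [hTc, hKj, Nat.card_univ, hQc, mul_comm]
      · intro r hr hd
        rw [hTc, hKj] at hd
        exact hjP r hr hd
      · intro r hr hd
        rw [(Nat.prime_dvd_prime_iff_eq hr hp).1 (hr.dvd_of_dvd_pow hd)]
        exact hpP

end H675HL
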